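import Pool.Agent.N601.LP4.E

/-!
# Vertices of large degree in `K_4^3`-free 3-graphs

`V` is a finite set with `n` elements, `T x y z` says that `x, y, z` form an edge.
-/

set_option autoImplicit false
open Finset
open scoped Classical

namespace Pool.Agent.N730.DP

open Pool.Agent.N601.LP4 (K4Free)

variable {V : Type} [Fintype V]

/-- The number of ordered pairs which form an edge with `b`: twice the degree. -/
noncomputable def D (T : V → V → V → Prop) (b : V) : ℝ :=
  ∑ x : V, ∑ y : V, if T b x y then (1 : ℝ) else 0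

/-- The number of the pairs outside `B` which do not form an edge with `b`. -/
noncomputable def Mi (T : V → V → V → Prop) (B : Finset V) (b : V) : ℝ :=
  ∑ x ∈ Bᶜ, ∑ y ∈ Bᶜ, if T b x y then (0 : ℝ) else 1

/-- The codegree into the complement of `B`. -/
noncomputable def Nb (T : V → V → V → Prop) (B : Finset V) (b b' : V) : ℝ :=
  ∑ x ∈ Bᶜ, if T b b' x then (1 : ℝ) else 0

lemma Mi_nonneg (T : V → V → V → Prop) (B : Finset V) (b : V) : 0 ≤ Mi T B b :=
  Finset.sum_nonneg fun _ _ => Finset.sum_nonneg fun _ _ => by split_ifs <;> norm_num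

lemma Nb_nonneg (T : V → V → V → Prop) (B : Finset V) (b b' : V) : 0 ≤ Nb T B b b' :=
  Finset.sum_nonneg fun _ _ => by split_ifs <;> norm_num

lemma D_nonneg (T : V → V → V → Prop) (b : V) : 0 ≤ D T b :=
  Finset.sum_nonneg fun _ _ => Finset.sum_nonneg fun _ _ => by split_ifs <;> norm_num

lemma Nb_sq {T : V → V → V → Prop} (hT : K4Free T) (B : Finset V) (b b' : V) :
    Nb T B b b' ^ 2 ≤ Mi T B b + Mi T B b' := by
  unfold Nb Mi
  rw [sq, Finset.sum_mul_sum, ← Finset.sum_add_distrib]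
  refine Finset.sum_le_sum fun x _ => ?_
  rw [← Finset.sum_add_distrib]
  refine Finset.sum_le_sum fun y _ => ?_
  by_cases h1 : T b b' x
  · by_cases h2 : T b b' y
    · by_cases h3 : T b x y
      · have h4 : ¬ T b' x y := fun h4 => hT.free b b' x y h1 h2 h3 h4
        rw [if_pos h1, if_pos h2, if_pos h3, if_neg h4]
        norm_num
      · rw [if_pos h1, if_pos h2, if_neg h3]
        split_ifs <;> norm_num
    · rw [if_neg h2, mul_zero]
      split_ifs <;> norm_num
  · rw [if_neg h1, zero_mul]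
    split_ifs <;> norm_num

lemma card_compl' (B : Finset V) : ((Bᶜ.card : ℕ) : ℝ) = (Fintype.card V : ℝ) - B.card := by
  rw [Finset.card_compl, Nat.cast_sub (Finset.card_le_univ B)]

lemma D_le {T : V → V → V → Prop} (hT : K4Free T) (B : Finset V) (b : V) :
    D T b ≤ ((Fintype.card V : ℝ) - B.card) ^ 2 - Mi T B b + 2 * ∑ b' ∈ B, Nb T B b b' +
      (B.card : ℝ) ^ 2 := by
  have h1 : D T b = (∑ x ∈ B, ∑ y ∈ B, if T b x y then (1 : ℝ) else 0) +
      (∑ x ∈ B, ∑ y ∈ Bᶜ, if T b x y then (1 : ℝ) else 0) +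
      ((∑ x ∈ Bᶜ, ∑ y ∈ B, if T b x y then (1 : ℝ) else 0) +
      (∑ x ∈ Bᶜ, ∑ y ∈ Bᶜ, if T b x y then (1 : ℝ) else 0)) := by
    unfold D
    rw [← Finset.sum_add_sum_compl B, ← Finset.sum_add_distrib, ← Finset.sum_add_distrib]
    congr 1
    · refine Finset.sum_congr rfl fun x _ => ?_
      rw [Finset.sum_add_sum_compl B]
    · refine Finset.sum_congr rfl fun x _ => ?_
      rw [Finset.sum_add_sum_compl B]
  have h2 : (∑ x ∈ B, ∑ y ∈ B, if T b x y then (1 : ℝ) else 0) ≤ (B.card : ℝ) ^ 2 := by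
    calc (∑ x ∈ B, ∑ y ∈ B, if T b x y then (1 : ℝ) else 0) ≤ ∑ _x ∈ B, ∑ _y ∈ B, (1 : ℝ) :=
          Finset.sum_le_sum fun x _ => Finset.sum_le_sum fun y _ => by split_ifs <;> norm_num
      _ = _ := by simp [sq]
  have h3 : (∑ x ∈ B, ∑ y ∈ Bᶜ, if T b x y then (1 : ℝ) else 0) = ∑ b' ∈ B, Nb T B b b' := rfl
  have h4 : (∑ x ∈ Bᶜ, ∑ y ∈ B, if T b x y then (1 : ℝ) else 0) = ∑ b' ∈ B, Nb T B b b' := by
    rw [Finset.sum_comm]
    refine Finset.sum_congr rfl fun y _ => ?_
    unfold Nb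
    refine Finset.sum_congr rfl fun x _ => ?_
    have : T b x y ↔ T b y x :=
      ⟨fun h => hT.rot _ _ _ (hT.swap _ _ _ h), fun h => hT.rot _ _ _ (hT.swap _ _ _ h)⟩
    by_cases hh : T b x y
    · rw [if_pos hh, if_pos (this.mp hh)]
    · rw [if_neg hh, if_neg (fun h' => hh (this.mpr h'))]
  have h5 : (∑ x ∈ Bᶜ, ∑ y ∈ Bᶜ, if T b x y then (1 : ℝ) else 0) =
      ((Fintype.card V : ℝ) - B.card) ^ 2 - Mi T B b := by
    rw [eq_sub_iff_add_eq]
    unfold Mi
    rw [← Finset.sum_add_distrib]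
    calc ∑ x ∈ Bᶜ, ((∑ y ∈ Bᶜ, if T b x y then (1 : ℝ) else 0) +
          ∑ y ∈ Bᶜ, if T b x y then (0 : ℝ) else 1) = ∑ _x ∈ Bᶜ, ∑ _y ∈ Bᶜ, (1 : ℝ) := by
            refine Finset.sum_congr rfl fun x _ => ?_
            rw [← Finset.sum_add_distrib]
            refine Finset.sum_congr rfl fun y _ => ?_
            split_ifs <;> norm_num
      _ = _ := by
          simp only [Finset.sum_const, nsmul_eq_mul, mul_one]
          rw [card_compl']
          ring
  rw [h1, h3, h4, h5]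
  linarith

end Pool.Agent.N730.DP
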