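import Pool.Agent.N730.DP.A

set_option autoImplicit false
open Finset
open scoped Classical

namespace Pool.Agent.N730.DP

open Pool.Agent.N601.LP4 (K4Free)

variable {V : Type} [Fintype V]

/-- **The average inequality.** -/
lemma sum_D_le {T : V → V → V → Prop} (hT : K4Free T) (B : Finset V) :
    ∑ b ∈ B, D T b ≤ (B.card : ℝ) * ((Fintype.card V : ℝ) ^ 2 -
      2 * Fintype.card V * B.card + 4 * (B.card : ℝ) ^ 2) := by
  set k : ℝ := (B.card : ℝ) with hk
  set n : ℝ := (Fintype.card V : ℝ) with hn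
  have hk0 : 0 ≤ k := Nat.cast_nonneg _
  set S : ℝ := ∑ b ∈ B, ∑ b' ∈ B, Nb T B b b' with hS
  set M : ℝ := ∑ b ∈ B, Mi T B b with hM
  have hM0 : 0 ≤ M := Finset.sum_nonneg fun b _ => Mi_nonneg T B b
  have hS0 : 0 ≤ S := Finset.sum_nonneg fun b _ => Finset.sum_nonneg fun b' _ => Nb_nonneg T B b b'
  have h1 : S ^ 2 ≤ k ^ 2 * (2 * k * M) := by
    have e1 : S = ∑ e ∈ B ×ˢ B, Nb T B e.1 e.2 := by rw [hS, Finset.sum_product]
    have e2 := sq_sum_le_card_mul_sum_sq (s := B ×ˢ B) (f := fun e => Nb T B e.1 e.2)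
    rw [← e1, Finset.card_product] at e2
    have e3 : ∑ e ∈ B ×ˢ B, Nb T B e.1 e.2 ^ 2 ≤ 2 * k * M := by
      calc ∑ e ∈ B ×ˢ B, Nb T B e.1 e.2 ^ 2 ≤ ∑ e ∈ B ×ˢ B, (Mi T B e.1 + Mi T B e.2) :=
            Finset.sum_le_sum fun e _ => Nb_sq hT B e.1 e.2
        _ = 2 * k * M := by
            rw [Finset.sum_add_distrib, Finset.sum_product, Finset.sum_product]
            simp only [Finset.sum_const, nsmul_eq_mul]
            rw [← hk, ← hM, ← Finset.mul_sum, ← hM]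
            ring
    refine e2.trans ?_
    push_cast
    rw [← hk, ← sq]
    exact mul_le_mul_of_nonneg_left e3 (sq_nonneg k)
  have h2 : 2 * S ≤ M + 2 * k ^ 3 := by
    have hk3 : 0 ≤ 2 * k ^ 3 := by positivity
    refine abs_le_of_sq_le_sq' ?_ (by positivity) |>.2
    nlinarith [sq_nonneg (M - 2 * k ^ 3)]
  calc ∑ b ∈ B, D T b ≤ ∑ b ∈ B, ((n - k) ^ 2 - Mi T B b + 2 * ∑ b' ∈ B, Nb T B b b' + k ^ 2) :=
        Finset.sum_le_sum fun b _ => D_le hT B b
    _ = k * (n - k) ^ 2 - M + 2 * S + k * k ^ 2 := by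
        rw [Finset.sum_add_distrib, Finset.sum_add_distrib, Finset.sum_sub_distrib,
          Finset.sum_const, Finset.sum_const, nsmul_eq_mul, nsmul_eq_mul, ← Finset.mul_sum]
    _ ≤ k * (n ^ 2 - 2 * n * k + 4 * k ^ 2) := by nlinarith

lemma D_le_sq {T : V → V → V → Prop} (hT : K4Free T) (b : V) :
    D T b ≤ ((Fintype.card V : ℝ) - 1) ^ 2 := by
  have h1 : ∀ x y, T b x y → x ≠ b ∧ y ≠ b := by
    intro x y h
    refine ⟨?_, ?_⟩
    · rintro rfl
      exact hT.irr _ _ h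
    · rintro rfl
      exact hT.irr _ _ (hT.rot _ _ _ (hT.rot _ _ _ h))
  have h2 : D T b ≤ ∑ x : V, ∑ y : V, (if x ≠ b then (1 : ℝ) else 0) *
      (if y ≠ b then (1 : ℝ) else 0) := by
    unfold D
    refine Finset.sum_le_sum fun x _ => Finset.sum_le_sum fun y _ => ?_
    by_cases h : T b x y
    · obtain ⟨h3, h4⟩ := h1 x y h
      rw [if_pos h, if_pos h3, if_pos h4]
      norm_num
    · rw [if_neg h]
      split_ifs <;> norm_num
  refine h2.trans (le_of_eq ?_)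
  rw [← Finset.sum_mul_sum, ← sq]
  congr 1
  have h3 : ∑ x : V, (if x ≠ b then (1 : ℝ) else 0) =
      ((univ.filter fun x : V => x ≠ b).card : ℝ) := by
    rw [Finset.sum_boole]
  rw [h3, Finset.filter_ne' univ b, Finset.card_erase_of_mem (mem_univ b), Finset.card_univ]
  have : 1 ≤ Fintype.card V := Fintype.card_pos_iff.mpr ⟨b⟩
  push_cast [Nat.cast_sub this]
  ring

/-- **Few vertices have almost full degree.** -/
theorem card_big {T : V → V → V → Prop} (hT : K4Free T) {s : ℝ} (hs0 : 0 < s) (hs : s ≤ 1 / 8) :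
    ((univ.filter fun v => (1 - s) * (Fintype.card V : ℝ) ^ 2 ≤ D T v).card : ℝ) ≤
      (s / 2 + s ^ 2) * Fintype.card V := by
  set n : ℝ := (Fintype.card V : ℝ) with hn
  set B : Finset V := univ.filter fun v => (1 - s) * n ^ 2 ≤ D T v with hB
  by_contra hcon
  push Not at hcon
  have hn0 : 0 ≤ n := Nat.cast_nonneg _
  have ha0 : 0 < s / 2 + s ^ 2 := by positivity
  have ha1 : s / 2 + s ^ 2 ≤ 5 / 64 := by nlinarith
  have hB0 : 0 < (B.card : ℝ) := lt_of_le_of_lt (by positivity) hcon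
  obtain ⟨b, hb⟩ := Finset.card_pos.mp (by exact_mod_cast hB0 : 0 < B.card)
  have hb' : (1 - s) * n ^ 2 ≤ D T b := (mem_filter.mp hb).2
  have hb2 := D_le_sq hT b
  have hcard1 : 1 ≤ Fintype.card V := Fintype.card_pos_iff.mpr ⟨b⟩
  have hn4 : (4 : ℝ) ≤ n := by
    by_contra hc
    push Not at hc
    have hc' : Fintype.card V < 4 := by
      rw [hn] at hc
      exact_mod_cast hc
    have h1 : (1 : ℝ) ≤ n := by
      rw [hn]
      exact_mod_cast hcard1
    have h3 : n ≤ 3 := by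
      have : Fintype.card V ≤ 3 := by omega
      rw [hn]
      exact_mod_cast this
    nlinarith
  -- the size of the subset
  set k : ℕ := ⌊(s / 2 + s ^ 2) * n⌋₊ + 1 with hk
  have hkn : k ≤ B.card := by
    rw [hk, Nat.succ_le_iff]
    exact (Nat.floor_lt (by positivity)).mpr hcon
  obtain ⟨B', hB', hcB'⟩ := Finset.exists_subset_card_eq hkn
  have hk1 : (s / 2 + s ^ 2) * n < k := by
    rw [hk]
    push_cast
    exact Nat.lt_floor_add_one _
  have hk2 : (k : ℝ) ≤ (s / 2 + s ^ 2) * n + 1 := by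
    rw [hk]
    push_cast
    have := Nat.floor_le (show 0 ≤ (s / 2 + s ^ 2) * n by positivity)
    linarith
  have hk0 : (0 : ℝ) < k := lt_of_le_of_lt (by positivity) hk1
  have h1 := sum_D_le hT B'
  rw [hcB', ← hn] at h1
  have h2 : (k : ℝ) * ((1 - s) * n ^ 2) ≤ ∑ b ∈ B', D T b := by
    have : ∑ _b ∈ B', ((1 - s) * n ^ 2) ≤ ∑ b ∈ B', D T b :=
      Finset.sum_le_sum fun b hb => (mem_filter.mp (hB' hb)).2
    rwa [Finset.sum_const, nsmul_eq_mul, hcB'] at this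
  have h3 : (1 - s) * n ^ 2 ≤ n ^ 2 - 2 * n * k + 4 * (k : ℝ) ^ 2 :=
    le_of_mul_le_mul_left (h2.trans h1) hk0
  set a : ℝ := s / 2 + s ^ 2 with ha
  set κ : ℝ := (k : ℝ) with hκ
  have h4 : κ ≤ 0.4 * n := by nlinarith
  have h5 : (κ - a * n) * (κ - 0.4 * n) ≤ 0 :=
    mul_nonpos_of_nonneg_of_nonpos (by linarith) (by linarith)
  have h6 : 4 * a ^ 2 - 2 * a + s < 0 := by
    have : 4 * a ^ 2 - 2 * a + s = s ^ 2 * ((1 + 2 * s) ^ 2 - 2) := by rw [ha]; ring
    rw [this]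
    refine mul_neg_of_pos_of_neg (by positivity) ?_
    nlinarith
  have h7 : (4 * a ^ 2 - 2 * a + s) * n ^ 2 < 0 := mul_neg_of_neg_of_pos h6 (by positivity)
  have h8 : (4 * a - 0.4) * (n * (κ - a * n)) ≤ 0 :=
    mul_nonpos_of_nonpos_of_nonneg (by linarith) (mul_nonneg hn0 (by linarith))
  nlinarith

end Pool.Agent.N730.DP
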