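import Pool.Agent.N730.DP.B

set_option autoImplicit false
open Finset
open scoped Classical

namespace Pool.Agent.N730.DP

open Pool.Agent.N601.LP4 (K4Free)

/-- The calculus lemma. -/
lemma exp_le_lin {p β y K : ℝ} (hp : 0 < p) (hK : K = 2 * p * β) (hβ : 0 ≤ β) (hy0 : 0 ≤ y)
    (hKy : K * y ≤ 1 / 2) :
    Real.exp (-(p * (y - β) ^ 2)) ≤ 1 + 4 * K ^ 2 / p - K * y := by
  rcases le_or_gt y (8 * β) with h | h
  · have h1 : Real.exp (-(p * (y - β) ^ 2)) ≤ 1 := by
      rw [Real.exp_le_one_iff]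
      have : 0 ≤ p * (y - β) ^ 2 := by positivity
      linarith
    have h2 : K * y ≤ 4 * K ^ 2 / p := by
      have : 4 * K ^ 2 / p = K * (8 * β) := by
        rw [hK]
        field_simp
        ring
      rw [this]
      exact mul_le_mul_of_nonneg_left h (by rw [hK]; positivity)
    linarith
  · set u : ℝ := p * (y - β) ^ 2 with hu
    have hu1 : p * y ^ 2 / 2 ≤ u := by
      have : y ^ 2 / 2 ≤ (y - β) ^ 2 := by nlinarith
      rw [hu]
      nlinarith
    have hu2 : 2 * (K * y) ≤ u := by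
      have : 2 * (K * y) ≤ p * y ^ 2 / 2 := by
        rw [hK]
        have : p * (y * (8 * β)) ≤ p * (y * y) :=
          mul_le_mul_of_nonneg_left (mul_le_mul_of_nonneg_left h.le hy0) hp.le
        nlinarith
      linarith
    have hu0 : 0 ≤ u := by positivity
    have h1 : Real.exp (-u) ≤ 1 / (1 + u) := by
      rw [Real.exp_neg, one_div]
      exact inv_anti₀ (by linarith) (by linarith [Real.add_one_le_exp u])
    have h2 : 1 / (1 + u) ≤ 1 - K * y := by
      rw [div_le_iff₀ (by linarith)]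
      nlinarith
    have h3 : 0 ≤ 4 * K ^ 2 / p := by positivity
    linarith

variable {V : Type} [Fintype V]

lemma D_add_Mi_le (T : V → V → V → Prop) (B : Finset V) (b : V) :
    D T b + Mi T B b ≤ (Fintype.card V : ℝ) ^ 2 := by
  have h1 : Mi T B b ≤ ∑ x : V, ∑ y : V, if T b x y then (0 : ℝ) else 1 := by
    unfold Mi
    refine (Finset.sum_le_sum fun x _ => Finset.sum_le_sum_of_subset_of_nonneg
      (Finset.subset_univ Bᶜ) fun y _ _ => by split_ifs <;> norm_num).trans ?_
    exact Finset.sum_le_sum_of_subset_of_nonneg (Finset.subset_univ Bᶜ)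
      fun x _ _ => Finset.sum_nonneg fun y _ => by split_ifs <;> norm_num
  have h2 : D T b + (∑ x : V, ∑ y : V, if T b x y then (0 : ℝ) else 1) =
      (Fintype.card V : ℝ) ^ 2 := by
    unfold D
    rw [← Finset.sum_add_distrib]
    calc ∑ x : V, ((∑ y : V, if T b x y then (1 : ℝ) else 0) +
          ∑ y : V, if T b x y then (0 : ℝ) else 1) = ∑ _x : V, ∑ _y : V, (1 : ℝ) := by
            refine Finset.sum_congr rfl fun x _ => ?_
            rw [← Finset.sum_add_distrib]
            refine Finset.sum_congr rfl fun y _ => ?_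
            split_ifs <;> norm_num
      _ = _ := by simp [sq]
  linarith

/-- The normalized square root of the number of missing pairs. -/
noncomputable def yy (T : V → V → V → Prop) (B : Finset V) (b : V) : ℝ :=
  Real.sqrt (Mi T B b) / Fintype.card V

lemma yy_nonneg (T : V → V → V → Prop) (B : Finset V) (b : V) : 0 ≤ yy T B b :=
  div_nonneg (Real.sqrt_nonneg _) (Nat.cast_nonneg _)

lemma D_norm {T : V → V → V → Prop} (hT : K4Free T) (B : Finset V) (b : V)
    (hn : 0 < (Fintype.card V : ℝ)) {β Y : ℝ} (hβ : β = (B.card : ℝ) / Fintype.card V)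
    (hY : Y = (∑ b' ∈ B, yy T B b') / Fintype.card V) :
    D T b / (Fintype.card V : ℝ) ^ 2 - 1 ≤ -2 * β + 3 * β ^ 2 - (yy T B b - β) ^ 2 + 2 * Y := by
  set n : ℝ := (Fintype.card V : ℝ) with hn'
  have h1 := D_le hT B b
  rw [← hn'] at h1
  have hk : (B.card : ℝ) = β * n := by rw [hβ]; field_simp
  have hM : Mi T B b = (yy T B b) ^ 2 * n ^ 2 := by
    unfold yy
    rw [div_pow, Real.sq_sqrt (Mi_nonneg T B b), ← hn']
    field_simp
  have hN : ∑ b' ∈ B, Nb T B b b' ≤ (β * yy T B b + Y) * n ^ 2 := by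
    have h2 : ∀ b' ∈ B, Nb T B b b' ≤ n * yy T B b + n * yy T B b' := by
      intro b' _
      have e1 : ∀ v, n * yy T B v = Real.sqrt (Mi T B v) := by
        intro v
        unfold yy
        rw [← hn']
        field_simp
      rw [e1, e1]
      refine abs_le_of_sq_le_sq' ?_ (add_nonneg (Real.sqrt_nonneg _) (Real.sqrt_nonneg _)) |>.2
      have e2 := Nb_sq hT B b b'
      have e3 := Real.sq_sqrt (Mi_nonneg T B b)
      have e4 := Real.sq_sqrt (Mi_nonneg T B b')
      have e5 : 0 ≤ Real.sqrt (Mi T B b) * Real.sqrt (Mi T B b') :=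
        mul_nonneg (Real.sqrt_nonneg _) (Real.sqrt_nonneg _)
      nlinarith
    refine (Finset.sum_le_sum h2).trans (le_of_eq ?_)
    rw [Finset.sum_add_distrib, Finset.sum_const, nsmul_eq_mul, ← Finset.mul_sum, hk, hY]
    field_simp
  rw [hk, hM] at h1
  have h3 : D T b ≤ (1 + (-2 * β + 3 * β ^ 2 - (yy T B b - β) ^ 2 + 2 * Y)) * n ^ 2 := by
    nlinarith
  have h4 : D T b / n ^ 2 ≤ 1 + (-2 * β + 3 * β ^ 2 - (yy T B b - β) ^ 2 + 2 * Y) := by
    rw [div_le_iff₀ (by positivity)]
    exact h3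
  linarith

lemma rpow_le_exp {x p : ℝ} (hx : 0 ≤ x) (hp : 0 ≤ p) : x ^ p ≤ Real.exp (p * (x - 1)) := by
  have h1 : x ≤ Real.exp (x - 1) := by linarith [Real.add_one_le_exp (x - 1)]
  refine (Real.rpow_le_rpow hx h1 hp).trans (le_of_eq ?_)
  rw [← Real.exp_mul]
  ring_nf

end Pool.Agent.N730.DP
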