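import Pool.Agent.N730.DP.C

set_option autoImplicit false
open Finset
open scoped Classical

namespace Pool.Agent.N730.DP

open Pool.Agent.N601.LP4 (K4Free)

lemma mul_exp_neg_le (K : ℝ) : K * Real.exp (-K) ≤ Real.exp (-1) := by
  have h1 : K ≤ Real.exp (K - 1) := by linarith [Real.add_one_le_exp (K - 1)]
  calc K * Real.exp (-K) ≤ Real.exp (K - 1) * Real.exp (-K) :=
        mul_le_mul_of_nonneg_right h1 (Real.exp_pos _).le
    _ = Real.exp (-1) := by
        rw [← Real.exp_add]
        ring_nf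

lemma mul_exp_neg_le' {K : ℝ} (hK : 6 ≤ K) : K * Real.exp (-(3 / 4 * K)) ≤ Real.exp (-1) := by
  have h1 : K ≤ Real.exp (3 / 4 * K - 1) := by
    have := Real.quadratic_le_exp_of_nonneg (show 0 ≤ 3 / 4 * K - 1 by linarith)
    nlinarith
  calc K * Real.exp (-(3 / 4 * K)) ≤ Real.exp (3 / 4 * K - 1) * Real.exp (-(3 / 4 * K)) :=
        mul_le_mul_of_nonneg_right h1 (Real.exp_pos _).le
    _ = Real.exp (-1) := by
        rw [← Real.exp_add]
        ring_nf

lemma s_bound {p : ℝ} (hp : 3000 ≤ p) : 2 * Real.log p / p ≤ 1 / 144 := by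
  have he1 := Real.exp_one_gt_d9
  have he2 := Real.exp_one_lt_d9
  have h8 : Real.exp 8 = Real.exp 1 ^ 8 := by
    rw [← Real.exp_nat_mul]
    norm_num
  have hlo : 2304 ≤ Real.exp 8 := by
    rw [h8]
    calc (2304 : ℝ) ≤ 2.7182818283 ^ 8 := by norm_num
      _ ≤ Real.exp 1 ^ 8 := pow_le_pow_left₀ (by norm_num) he1.le 8
  have hhi : Real.exp 8 ≤ 3000 := by
    rw [h8]
    calc Real.exp 1 ^ 8 ≤ 2.7182818286 ^ 8 := pow_le_pow_left₀ (Real.exp_pos 1).le he2.le 8
      _ ≤ (3000 : ℝ) := by norm_num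
  have h1 := Real.log_div_self_antitoneOn (a := Real.exp 8) (b := p)
    (by
      show Real.exp 1 ≤ Real.exp 8
      exact Real.exp_le_exp.mpr (by norm_num))
    (by
      show Real.exp 1 ≤ p
      linarith) (by linarith)
  simp only [Real.log_exp] at h1
  have h2 : (8 : ℝ) / Real.exp 8 ≤ 8 / 2304 := by
    exact div_le_div_of_nonneg_left (by norm_num) (by norm_num) hlo
  have h3 : 2 * Real.log p / p = 2 * (Real.log p / p) := by ring
  rw [h3]
  linarith

variable {V : Type} [Fintype V]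

/-- The contribution of the vertices of large degree. -/
theorem sum_big {T : V → V → V → Prop} (hT : K4Free T) {p s : ℝ} (hp : 3000 ≤ p)
    (hs0 : 0 < s) (hs : s ≤ 1 / 144) (hn : 0 < (Fintype.card V : ℝ)) :
    ∑ v ∈ univ.filter (fun v => (1 - s) * (Fintype.card V : ℝ) ^ 2 ≤ D T v),
      (D T v / (Fintype.card V : ℝ) ^ 2) ^ p ≤
      (1 / (2 * Real.exp 1 * p) + 63 / p ^ 2) * Fintype.card V := by
  set n : ℝ := (Fintype.card V : ℝ) with hn'
  set B : Finset V := univ.filter fun v => (1 - s) * n ^ 2 ≤ D T v with hB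
  have hp0 : 0 < p := by linarith
  have hk1 : (B.card : ℝ) ≤ (s / 2 + s ^ 2) * n := card_big hT hs0 (by linarith)
  set β : ℝ := (B.card : ℝ) / n with hβ
  have hk : (B.card : ℝ) = β * n := by rw [hβ]; field_simp
  have hβ0 : 0 ≤ β := div_nonneg (Nat.cast_nonneg _) hn.le
  have hβ1 : β ≤ s / 2 + s ^ 2 := by
    rw [hβ, div_le_iff₀ hn]
    exact hk1
  have hβ2 : β ≤ 1 / 144 := by nlinarith
  set K : ℝ := 2 * p * β with hK
  have hK0 : 0 ≤ K := mul_nonneg (by linarith) hβ0
  set Y : ℝ := (∑ b' ∈ B, yy T B b') / n with hY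
  have hYn : ∑ b' ∈ B, yy T B b' = Y * n := by rw [hY]; field_simp
  have hpt : ∀ b ∈ B, (D T b / n ^ 2) ^ p ≤
      Real.exp (-K + 3 * p * β ^ 2 - p * (yy T B b - β) ^ 2 + 2 * p * Y) := by
    intro b _
    refine (rpow_le_exp (by have := D_nonneg T b; positivity) hp0.le).trans ?_
    rw [Real.exp_le_exp]
    have h := D_norm hT B b hn (β := β) (Y := Y) rfl rfl
    rw [← hn'] at h
    calc p * (D T b / n ^ 2 - 1) ≤ p * (-2 * β + 3 * β ^ 2 - (yy T B b - β) ^ 2 + 2 * Y) :=
          mul_le_mul_of_nonneg_left h hp0.le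
      _ = _ := by rw [hK]; ring
  have hy : ∀ b ∈ B, yy T B b ≤ 1 / 12 := by
    intro b hb
    have h1 : (1 - s) * n ^ 2 ≤ D T b := (mem_filter.mp hb).2
    have h2 := D_add_Mi_le T B b
    rw [← hn'] at h2
    have h3 : Mi T B b ≤ (n / 12) ^ 2 := by nlinarith
    unfold yy
    rw [← hn', div_le_iff₀ hn]
    refine (Real.sqrt_le_sqrt h3).trans (le_of_eq ?_)
    rw [Real.sqrt_sq (by positivity)]
    ring
  have hneg : Real.exp (-1) = 1 / Real.exp 1 := by rw [Real.exp_neg, one_div]
  have hkK : (B.card : ℝ) = n / (2 * p) * K := by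
    rw [hk, hK]
    field_simp
  rcases le_or_gt K 6 with hK6 | hK6
  · -- the main case
    have h1 : ∑ b ∈ B, (D T b / n ^ 2) ^ p ≤
        Real.exp (-K + 3 * p * β ^ 2 + 2 * p * Y) *
          ∑ b ∈ B, Real.exp (-(p * (yy T B b - β) ^ 2)) := by
      rw [Finset.mul_sum]
      refine Finset.sum_le_sum fun b hb => (hpt b hb).trans (le_of_eq ?_)
      rw [← Real.exp_add]
      ring_nf
    have h2 : ∑ b ∈ B, Real.exp (-(p * (yy T B b - β) ^ 2)) ≤
        (B.card : ℝ) * (1 + 4 * K ^ 2 / p - 2 * p * Y) := by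
      calc ∑ b ∈ B, Real.exp (-(p * (yy T B b - β) ^ 2)) ≤
            ∑ b ∈ B, (1 + 4 * K ^ 2 / p - K * yy T B b) := by
            refine Finset.sum_le_sum fun b hb => exp_le_lin hp0 hK hβ0 (yy_nonneg T B b) ?_
            have := hy b hb
            have h0 := yy_nonneg T B b
            nlinarith
        _ = _ := by
            rw [Finset.sum_sub_distrib, Finset.sum_const, nsmul_eq_mul, ← Finset.mul_sum, hYn,
              hk, hK]
            ring
    have h3 : (1 + 4 * K ^ 2 / p - 2 * p * Y) ≤ Real.exp (4 * K ^ 2 / p - 2 * p * Y) := by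
      linarith [Real.add_one_le_exp (4 * K ^ 2 / p - 2 * p * Y)]
    have h4 : ∑ b ∈ B, (D T b / n ^ 2) ^ p ≤
        (B.card : ℝ) * (Real.exp (-K) * Real.exp (3 * p * β ^ 2 + 4 * K ^ 2 / p)) := by
      calc ∑ b ∈ B, (D T b / n ^ 2) ^ p ≤ Real.exp (-K + 3 * p * β ^ 2 + 2 * p * Y) *
            ((B.card : ℝ) * Real.exp (4 * K ^ 2 / p - 2 * p * Y)) :=
            h1.trans (mul_le_mul_of_nonneg_left (h2.trans
              (mul_le_mul_of_nonneg_left h3 (Nat.cast_nonneg _))) (Real.exp_pos _).le)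
        _ = (B.card : ℝ) * (Real.exp (-K + 3 * p * β ^ 2 + 2 * p * Y) *
              Real.exp (4 * K ^ 2 / p - 2 * p * Y)) := by ring
        _ = _ := by
            rw [← Real.exp_add, ← Real.exp_add]
            ring_nf
    set c : ℝ := 3 * p * β ^ 2 + 4 * K ^ 2 / p with hc
    have hc0 : 0 ≤ c := add_nonneg (mul_nonneg (by linarith) (sq_nonneg β))
      (div_nonneg (mul_nonneg (by norm_num) (sq_nonneg K)) hp0.le)
    have hc1 : c ≤ 171 / p := by
      have e1 : c = 19 / 4 * K ^ 2 / p := by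
        rw [hc, hK]
        field_simp
        ring
      rw [e1]
      refine div_le_div_of_nonneg_right ?_ hp0.le
      nlinarith
    have hc2 : 171 / p ≤ 1 / 2 := by
      rw [div_le_iff₀ hp0]
      linarith
    have hec : Real.exp c ≤ 1 + 342 / p := by
      have e1 : Real.exp c ≤ 1 / (1 - c) := by
        have := Real.add_one_le_exp (-c)
        rw [← neg_neg c, Real.exp_neg, one_div, neg_neg]
        exact inv_anti₀ (by linarith) (by linarith)
      have e2 : 1 / (1 - c) ≤ 1 + 2 * c := by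
        rw [div_le_iff₀ (by linarith)]
        nlinarith
      have e3 : 342 / p = 2 * (171 / p) := by ring
      linarith
    have h5 : (B.card : ℝ) * (Real.exp (-K) * Real.exp c) ≤
        n / (2 * p) * (Real.exp (-1) * (1 + 342 / p)) := by
      rw [hkK]
      calc n / (2 * p) * K * (Real.exp (-K) * Real.exp c) =
            n / (2 * p) * ((K * Real.exp (-K)) * Real.exp c) := by ring
        _ ≤ _ := by
            refine mul_le_mul_of_nonneg_left ?_ (by positivity)
            exact mul_le_mul (mul_exp_neg_le K) hec (Real.exp_pos _).le (Real.exp_pos _).le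
    refine h4.trans (h5.trans ?_)
    rw [hneg]
    have he1 := Real.exp_one_gt_d9
    have e0 : 0 < Real.exp 1 := Real.exp_pos 1
    have e1 : n / (2 * p) * (1 / Real.exp 1 * (1 + 342 / p)) =
        (1 / (2 * Real.exp 1 * p) + (171 / Real.exp 1) / p ^ 2) * n := by
      field_simp
      ring
    rw [e1]
    refine mul_le_mul_of_nonneg_right ?_ hn.le
    have e2 : 171 / Real.exp 1 ≤ 63 := by
      rw [div_le_iff₀ e0]
      linarith
    have e3 : (171 / Real.exp 1) / p ^ 2 ≤ 63 / p ^ 2 := div_le_div_of_nonneg_right e2 (by positivity)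
    linarith
  · -- many vertices: a crude bound
    have hYle : 2 * p * Y ≤ K / 12 := by
      have h1 : ∑ b' ∈ B, yy T B b' ≤ (B.card : ℝ) * (1 / 12) := by
        calc ∑ b' ∈ B, yy T B b' ≤ ∑ _b' ∈ B, (1 / 12 : ℝ) := Finset.sum_le_sum hy
          _ = _ := by rw [Finset.sum_const, nsmul_eq_mul]
      rw [hYn, hk] at h1
      have h2 : Y ≤ β / 12 := by
        have : Y * n ≤ (β / 12) * n := by linarith
        exact le_of_mul_le_mul_right this hn
      rw [hK]
      nlinarith
    have h1 : ∀ b ∈ B, (D T b / n ^ 2) ^ p ≤ Real.exp (-(3 / 4 * K)) := by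
      intro b hb
      refine (hpt b hb).trans (Real.exp_le_exp.mpr ?_)
      have e1 : 0 ≤ p * (yy T B b - β) ^ 2 := by positivity
      have e2 : 3 * p * β ^ 2 = 3 / 2 * β * K := by rw [hK]; ring
      have e3 : 3 / 2 * β * K ≤ 1 / 96 * K := mul_le_mul_of_nonneg_right (by linarith) hK0
      rw [e2]
      linarith
    have h2 : ∑ b ∈ B, (D T b / n ^ 2) ^ p ≤ (B.card : ℝ) * Real.exp (-(3 / 4 * K)) := by
      refine (Finset.sum_le_sum h1).trans (le_of_eq ?_)
      rw [Finset.sum_const, nsmul_eq_mul]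
    refine h2.trans ?_
    rw [hkK, mul_assoc]
    calc n / (2 * p) * (K * Real.exp (-(3 / 4 * K))) ≤ n / (2 * p) * Real.exp (-1) :=
          mul_le_mul_of_nonneg_left (mul_exp_neg_le' hK6.le) (by positivity)
      _ = (1 / (2 * Real.exp 1 * p)) * n := by
          rw [hneg]
          field_simp
      _ ≤ _ := by
          refine mul_le_mul_of_nonneg_right ?_ hn.le
          have : 0 ≤ 63 / p ^ 2 := by positivity
          linarith

/-- **The upper bound**, abstract version. -/
theorem upper_abs {T : V → V → V → Prop} (hT : K4Free T) {p : ℝ} (hp : 3000 ≤ p) :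
    ∑ v : V, (D T v / (Fintype.card V : ℝ) ^ 2) ^ p ≤
      (1 / (2 * Real.exp 1 * p) + 64 / p ^ 2) * Fintype.card V := by
  have hp0 : 0 < p := by linarith
  rcases Nat.eq_zero_or_pos (Fintype.card V) with h0 | h0
  · have : IsEmpty V := Fintype.card_eq_zero_iff.mp h0
    simp
  have hn : 0 < (Fintype.card V : ℝ) := by exact_mod_cast h0
  set s : ℝ := 2 * Real.log p / p with hs
  have hs0 : 0 < s := by
    have : 0 < Real.log p := Real.log_pos (by linarith)
    positivity
  have hs1 : s ≤ 1 / 144 := s_bound hp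
  have h1 := sum_big hT hp hs0 hs1 hn
  set n : ℝ := (Fintype.card V : ℝ) with hn'
  rw [← Finset.sum_filter_add_sum_filter_not univ (fun v => (1 - s) * n ^ 2 ≤ D T v)]
  have h2 : ∑ v ∈ univ.filter (fun v => ¬ (1 - s) * n ^ 2 ≤ D T v), (D T v / n ^ 2) ^ p ≤
      1 / p ^ 2 * n := by
    calc ∑ v ∈ univ.filter (fun v => ¬ (1 - s) * n ^ 2 ≤ D T v), (D T v / n ^ 2) ^ p ≤
          ∑ _v ∈ univ.filter (fun v => ¬ (1 - s) * n ^ 2 ≤ D T v), (1 / p ^ 2) := by
          refine Finset.sum_le_sum fun v hv => ?_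
          have h3 : D T v / n ^ 2 ≤ 1 - s := by
            rw [div_le_iff₀ (by positivity)]
            exact (not_le.mp (mem_filter.mp hv).2).le
          have h4 : 0 ≤ D T v / n ^ 2 := by have := D_nonneg T v; positivity
          refine (rpow_le_exp h4 hp0.le).trans ?_
          have h5 : Real.exp (-(2 * Real.log p)) = 1 / p ^ 2 := by
            rw [Real.exp_neg, two_mul, Real.exp_add, Real.exp_log hp0, one_div, sq]
          rw [← h5, Real.exp_le_exp]
          have h6 : p * s = 2 * Real.log p := by rw [hs]; field_simp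
          nlinarith
      _ ≤ 1 / p ^ 2 * n := by
          rw [Finset.sum_const, nsmul_eq_mul, mul_comm]
          refine mul_le_mul_of_nonneg_left ?_ (by positivity)
          rw [hn']
          exact_mod_cast Finset.card_le_univ _
  have h3 : (1 / (2 * Real.exp 1 * p) + 64 / p ^ 2) * n =
      (1 / (2 * Real.exp 1 * p) + 63 / p ^ 2) * n + 1 / p ^ 2 * n := by ring
  rw [h3]
  exact add_le_add h1 h2

end Pool.Agent.N730.DP
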