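import Pool.Agent.N730.DP.D

set_option autoImplicit false
open Finset Filter Topology
open scoped Classical

namespace Pool.Agent.N730.DP

open Pool.Agent.N601.LP4 (K4Free CliqueFree oneOf oneOf_card oneOf_free k4free_of)

/-- The number of edges containing `v`. -/
noncomputable def degree {n : ℕ} (H : Finset (Finset (Fin n))) (v : Fin n) : ℕ :=
  (H.filter fun e => v ∈ e).card

/-- The sum of the `p`-th powers of the normalized degrees. -/
noncomputable def powerSum {n : ℕ} (p : ℝ) (H : Finset (Finset (Fin n))) : ℝ :=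
  ∑ v : Fin n, (2 * (degree H v : ℝ) / (n : ℝ) ^ 2) ^ p

/-- The adjacency relation of a 3-graph. -/
def adj {n : ℕ} (H : Finset (Finset (Fin n))) (x y z : Fin n) : Prop :=
  ({x, y, z} : Finset (Fin n)) ∈ H

lemma D_eq {n : ℕ} {H : Finset (Finset (Fin n))} (h3 : ∀ e ∈ H, e.card = 3) (v : Fin n) :
    D (adj H) v = 2 * (degree H v : ℝ) := by
  set S := H.filter fun e => v ∈ e with hS
  have h1 : ∀ x y : Fin n, (if adj H v x y then (1 : ℝ) else 0) =
      ∑ e ∈ S, if ({v, x, y} : Finset (Fin n)) = e then (1 : ℝ) else 0 := by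
    intro x y
    rw [Finset.sum_ite_eq]
    have : ({v, x, y} : Finset (Fin n)) ∈ S ↔ adj H v x y := by
      rw [hS, mem_filter]
      unfold adj
      simp
    by_cases h : adj H v x y
    · rw [if_pos h, if_pos (this.mpr h)]
    · rw [if_neg h, if_neg (fun h' => h (this.mp h'))]
  have h2 : ∀ e ∈ S, ∑ x : Fin n, ∑ y : Fin n,
      (if ({v, x, y} : Finset (Fin n)) = e then (1 : ℝ) else 0) = 2 := by
    intro e he
    obtain ⟨heH, hve⟩ := mem_filter.mp he
    have hc : (e.erase v).card = 2 := by rw [Finset.card_erase_of_mem hve, h3 e heH]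
    obtain ⟨a, b, hab, hab'⟩ := Finset.card_eq_two.mp hc
    have he' : e = {v, a, b} := by rw [← hab', Finset.insert_erase hve]
    have hav : a ≠ v := by
      have : a ∈ e.erase v := by rw [hab']; simp
      exact (mem_erase.mp this).1
    have hbv : b ≠ v := by
      have : b ∈ e.erase v := by rw [hab']; simp
      exact (mem_erase.mp this).1
    have key : ∀ x y : Fin n, (if ({v, x, y} : Finset (Fin n)) = e then (1 : ℝ) else 0) =
        (if x = a then (if y = b then (1 : ℝ) else 0) else 0) +
        (if x = b then (if y = a then (1 : ℝ) else 0) else 0) := by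
      intro x y
      by_cases h : ({v, x, y} : Finset (Fin n)) = e
      · rw [if_pos h]
        have ha : a ∈ ({v, x, y} : Finset (Fin n)) := by rw [h, he']; simp
        have hb : b ∈ ({v, x, y} : Finset (Fin n)) := by rw [h, he']; simp
        simp only [mem_insert, mem_singleton] at ha hb
        rcases ha with ha | ha | ha
        · exact absurd ha hav
        · rcases hb with hb | hb | hb
          · exact absurd hb hbv
          · exact absurd (ha.trans hb.symm) hab
          · subst ha hb
            rw [if_pos rfl, if_pos rfl, if_neg hab]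
            norm_num
        · rcases hb with hb | hb | hb
          · exact absurd hb hbv
          · subst ha hb
            rw [if_neg (Ne.symm hab), if_pos rfl, if_pos rfl]
            norm_num
          · exact absurd (ha.trans hb.symm) hab
      · rw [if_neg h]
        have n1 : ¬ (x = a ∧ y = b) := by
          rintro ⟨rfl, rfl⟩
          exact h he'.symm
        have n2 : ¬ (x = b ∧ y = a) := by
          rintro ⟨rfl, rfl⟩
          apply h
          rw [he']
          ext z
          simp only [mem_insert, mem_singleton]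
          tauto
        have e1 : (if x = a then (if y = b then (1 : ℝ) else 0) else 0) = 0 := by
          by_cases hx : x = a
          · rw [if_pos hx, if_neg (fun hy => n1 ⟨hx, hy⟩)]
          · rw [if_neg hx]
        have e2 : (if x = b then (if y = a then (1 : ℝ) else 0) else 0) = 0 := by
          by_cases hx : x = b
          · rw [if_pos hx, if_neg (fun hy => n2 ⟨hx, hy⟩)]
          · rw [if_neg hx]
        rw [e1, e2, add_zero]
    simp_rw [key, Finset.sum_add_distrib]
    have e3 : ∀ a b : Fin n, ∑ x : Fin n, ∑ y : Fin n,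
        (if x = a then (if y = b then (1 : ℝ) else 0) else 0) = 1 := by
      intro a b
      rw [Finset.sum_eq_single a]
      · simp
      · intro x _ hx
        simp [hx]
      · intro h
        exact absurd (mem_univ a) h
    rw [e3, e3]
    norm_num
  unfold D
  simp_rw [h1]
  have h3' : ∑ x : Fin n, ∑ y : Fin n, ∑ e ∈ S,
      (if ({v, x, y} : Finset (Fin n)) = e then (1 : ℝ) else 0) = ∑ e ∈ S, ∑ x : Fin n,
      ∑ y : Fin n, (if ({v, x, y} : Finset (Fin n)) = e then (1 : ℝ) else 0) := by
    rw [Finset.sum_comm]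
    have : ∀ x : Fin n, ∑ y : Fin n, ∑ e ∈ S,
        (if ({v, x, y} : Finset (Fin n)) = e then (1 : ℝ) else 0) = ∑ e ∈ S, ∑ y : Fin n,
        (if ({v, x, y} : Finset (Fin n)) = e then (1 : ℝ) else 0) := fun x => Finset.sum_comm
    rw [Finset.sum_comm]
    simp_rw [this]
    rw [Finset.sum_comm]
  rw [h3', Finset.sum_congr rfl h2, Finset.sum_const, nsmul_eq_mul, mul_comm]
  rfl

lemma powerSum_eq {n : ℕ} {H : Finset (Finset (Fin n))} (h3 : ∀ e ∈ H, e.card = 3) (p : ℝ) :
    powerSum p H = ∑ v : Fin n, (D (adj H) v / ((Fintype.card (Fin n) : ℕ) : ℝ) ^ 2) ^ p := by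
  unfold powerSum
  refine Finset.sum_congr rfl fun v _ => ?_
  rw [D_eq h3, Fintype.card_fin]

/-- **The upper bound.** -/
theorem upper {p : ℝ} (hp : 3000 ≤ p) {n : ℕ} {H : Finset (Finset (Fin n))}
    (h3 : ∀ e ∈ H, e.card = 3) (hF : CliqueFree H) :
    powerSum p H ≤ (1 / (2 * Real.exp 1 * p) + 64 / p ^ 2) * n := by
  have h := upper_abs (T := adj H) (k4free_of h3 hF) hp
  rw [powerSum_eq h3]
  rwa [Fintype.card_fin] at h ⊢

/-- **Few vertices of large degree.** -/
theorem card_large {s : ℝ} (hs0 : 0 < s) (hs : s ≤ 1 / 8) {n : ℕ} {H : Finset (Finset (Fin n))}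
    (h3 : ∀ e ∈ H, e.card = 3) (hF : CliqueFree H) :
    ((univ.filter fun v : Fin n => (1 - s) * (n : ℝ) ^ 2 ≤ 2 * (degree H v : ℝ)).card : ℝ) ≤
      (s / 2 + s ^ 2) * n := by
  have h := card_big (T := adj H) (k4free_of h3 hF) hs0 hs
  rw [Fintype.card_fin] at h
  simp_rw [D_eq h3] at h
  exact h

/-- The degrees of the first vertices of `oneOf n m`. -/
theorem degree_oneOf {n m : ℕ} (hm : m ≤ n) {v : Fin n} (hv : v.val < m) :
    ((n : ℝ) - m) * ((n : ℝ) - m - 1) ≤ 2 * (degree (oneOf n m) v : ℝ) := by
  rw [← D_eq (oneOf_card n m)]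
  set A : Finset (Fin n) := univ.filter fun z : Fin n => ¬ z.val < m with hA
  have hcA : (A.card : ℝ) = n - m := by
    have hcB : ((univ.filter fun z : Fin n => z.val < m).card : ℝ) = m := by
      have : (univ.filter fun z : Fin n => z.val < m) = (univ : Finset (Fin m)).map
          (Fin.castLEEmb (by omega : m ≤ n)) := by
        ext z
        simp only [mem_filter, mem_univ, true_and, Finset.mem_map]
        constructor
        · intro h
          exact ⟨⟨z.val, h⟩, by ext; rfl⟩
        · rintro ⟨a, rfl⟩
          exact a.isLt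
      rw [this, Finset.card_map, Finset.card_univ, Fintype.card_fin]
    have h2 := Finset.card_filter_add_card_filter_not (s := (univ : Finset (Fin n)))
      (fun z => z.val < m)
    rw [Finset.card_univ, Fintype.card_fin] at h2
    have h3 : ((univ.filter fun z : Fin n => z.val < m).card : ℝ) +
      ((univ.filter fun z : Fin n => ¬ z.val < m).card : ℝ) = n := by exact_mod_cast h2
    linarith
  have h1 : D (adj (oneOf n m)) v =
      ∑ e ∈ (univ : Finset (Fin n)) ×ˢ (univ : Finset (Fin n)),
        if adj (oneOf n m) v e.1 e.2 then (1 : ℝ) else 0 := by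
    rw [Finset.sum_product]
    rfl
  have h2 : ∑ e ∈ A.offDiag, (if adj (oneOf n m) v e.1 e.2 then (1 : ℝ) else 0) ≤
      D (adj (oneOf n m)) v := by
    rw [h1]
    refine Finset.sum_le_sum_of_subset_of_nonneg ?_ fun e _ _ => by split_ifs <;> norm_num
    intro e _
    simp
  have h3 : ∑ e ∈ A.offDiag, (if adj (oneOf n m) v e.1 e.2 then (1 : ℝ) else 0) =
      ∑ _e ∈ A.offDiag, (1 : ℝ) := by
    refine Finset.sum_congr rfl fun e he => ?_
    obtain ⟨h4, h5, h6⟩ := Finset.mem_offDiag.mp he
    have h4' : ¬ e.1.val < m := (mem_filter.mp h4).2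
    have h5' : ¬ e.2.val < m := (mem_filter.mp h5).2
    rw [if_pos]
    unfold adj oneOf
    rw [mem_filter]
    have hx : v ≠ e.1 := fun h => by rw [h] at hv; exact h4' hv
    have hy : v ≠ e.2 := fun h => by rw [h] at hv; exact h5' hv
    refine ⟨mem_univ _, ?_, ?_⟩
    · rw [Finset.card_eq_three]
      exact ⟨v, e.1, e.2, hx, hy, h6, rfl⟩
    · rw [Finset.card_eq_one]
      refine ⟨v, ?_⟩
      ext z
      simp only [mem_filter, mem_insert, mem_singleton]
      constructor
      · rintro ⟨rfl | rfl | rfl, h⟩
        · rfl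
        · exact absurd h h4'
        · exact absurd h h5'
      · rintro rfl
        exact ⟨Or.inl rfl, hv⟩
  have h4 : ∑ _e ∈ A.offDiag, (1 : ℝ) = ((n : ℝ) - m) * ((n : ℝ) - m - 1) := by
    rw [Finset.sum_const, nsmul_eq_mul, mul_one, Finset.offDiag_card, Nat.cast_sub
      (Nat.le_mul_self _)]
    push_cast
    rw [hcA]
    ring
  linarith

end Pool.Agent.N730.DP
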