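import Pool.Agent.N730.DP.E

set_option autoImplicit false
open Finset Filter Topology
open scoped Classical

namespace Pool.Agent.N730.DP

open Pool.Agent.N601.LP4 (K4Free CliqueFree oneOf oneOf_card oneOf_free k4free_of)

lemma const_le {p : ℝ} (hp : 0 < p) : 1 / (Real.exp 1 * (2 * p + 1)) ≤
    (1 / (2 * p + 1)) * ((1 - 1 / (2 * p + 1)) ^ 2) ^ p := by
  have h0 : (0 : ℝ) < 1 - 1 / (2 * p + 1) := by
    rw [sub_pos, div_lt_one (by linarith)]
    linarith
  have h1 : ((1 - 1 / (2 * p + 1)) ^ 2) ^ p = (1 - 1 / (2 * p + 1)) ^ (2 * p) := by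
    rw [Real.rpow_mul h0.le, Real.rpow_two]
  have h2 : (1 - 1 / (2 * p + 1)) = (1 + 1 / (2 * p))⁻¹ := by
    field_simp
    ring
  have h3 : Real.exp (-1) ≤ (1 - 1 / (2 * p + 1)) ^ (2 * p) := by
    rw [h2, Real.inv_rpow (by positivity), Real.exp_neg]
    refine inv_anti₀ (by positivity) ?_
    have h4 : (1 + 1 / (2 * p)) ^ (2 * p) ≤ Real.exp (1 / (2 * p)) ^ (2 * p) :=
      Real.rpow_le_rpow (by positivity) (by linarith [Real.add_one_le_exp (1 / (2 * p))])
        (by linarith)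
    refine h4.trans (le_of_eq ?_)
    rw [← Real.exp_mul]
    congr 1
    field_simp
  rw [h1]
  calc 1 / (Real.exp 1 * (2 * p + 1)) = (1 / (2 * p + 1)) * Real.exp (-1) := by
        rw [Real.exp_neg]
        field_simp
    _ ≤ _ := mul_le_mul_of_nonneg_left h3 (by positivity)

lemma powerSum_oneOf {n m : ℕ} {p : ℝ} (hp : 0 ≤ p) (hm : m + 1 ≤ n) :
    (m : ℝ) * ((((n : ℝ) - m - 1) / n) ^ 2) ^ p ≤ powerSum p (oneOf n m) := by
  have hmn : (m : ℝ) + 1 ≤ n := by exact_mod_cast hm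
  have hn0 : (0 : ℝ) < n := by
    have : 0 < n := by omega
    exact_mod_cast this
  have hcB : ((univ.filter fun z : Fin n => z.val < m).card : ℝ) = m := by
    have : (univ.filter fun z : Fin n => z.val < m) = (univ : Finset (Fin m)).map
        (Fin.castLEEmb (by omega : m ≤ n)) := by
      ext z
      simp only [mem_filter, mem_univ, true_and, Finset.mem_map]
      constructor
      · intro h
        exact ⟨⟨z.val, h⟩, by ext; rfl⟩
      · rintro ⟨a, rfl⟩
        exact a.isLt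
    rw [this, Finset.card_map, Finset.card_univ, Fintype.card_fin]
  unfold powerSum
  calc (m : ℝ) * ((((n : ℝ) - m - 1) / n) ^ 2) ^ p =
        ∑ _v ∈ univ.filter (fun z : Fin n => z.val < m), ((((n : ℝ) - m - 1) / n) ^ 2) ^ p := by
        rw [Finset.sum_const, nsmul_eq_mul, hcB]
    _ ≤ ∑ v ∈ univ.filter (fun z : Fin n => z.val < m),
          (2 * (degree (oneOf n m) v : ℝ) / (n : ℝ) ^ 2) ^ p := by
        refine Finset.sum_le_sum fun v hv => ?_
        have hv' : v.val < m := (mem_filter.mp hv).2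
        refine Real.rpow_le_rpow (by positivity) ?_ hp
        have h := degree_oneOf (by omega : m ≤ n) hv'
        rw [div_pow]
        refine div_le_div_of_nonneg_right ?_ (by positivity)
        nlinarith
    _ ≤ ∑ v : Fin n, (2 * (degree (oneOf n m) v : ℝ) / (n : ℝ) ^ 2) ^ p :=
        Finset.sum_le_sum_of_subset_of_nonneg (Finset.subset_univ _)
          fun v _ _ => by positivity

/-- **The lower bound.** -/
theorem lower {p : ℝ} (hp : 1 ≤ p) {c : ℝ} (hc : c < 1 / (Real.exp 1 * (2 * p + 1))) :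
    ∃ N : ℕ, ∀ n : ℕ, N ≤ n → c * (n : ℝ) < powerSum p (oneOf n ⌊(n : ℝ) / (2 * p + 1)⌋₊) := by
  set β : ℝ := 1 / (2 * p + 1) with hβ
  have hc' : c < β * ((1 - β) ^ 2) ^ p := lt_of_lt_of_le hc (const_le (by linarith))
  have hβ1 : β ≤ 1 / 3 := by
    rw [hβ]
    exact one_div_le_one_div_of_le (by norm_num) (by linarith)
  have hβ0 : 0 < β := by positivity
  have t1 : Tendsto (fun n : ℕ => ((⌊(n : ℝ) / (2 * p + 1)⌋₊ : ℕ) : ℝ) / n) atTop (𝓝 β) := by
    have h := (tendsto_nat_floor_mul_div_atTop (R := ℝ) (a := β) hβ0.le).comp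
      tendsto_natCast_atTop_atTop
    refine h.congr fun n => ?_
    simp only [Function.comp]
    rw [hβ]
    congr 3
    ring
  have t0 : Tendsto (fun n : ℕ => (1 : ℝ) / n) atTop (𝓝 0) := tendsto_one_div_atTop_nhds_zero_nat
  have t2 : Tendsto (fun n : ℕ => (((⌊(n : ℝ) / (2 * p + 1)⌋₊ : ℕ) : ℝ) / n) *
      ((1 - ((⌊(n : ℝ) / (2 * p + 1)⌋₊ : ℕ) : ℝ) / n - 1 / n) ^ 2) ^ p) atTop
      (𝓝 (β * ((1 - β - 0) ^ 2) ^ p)) := by
    refine Tendsto.mul t1 ?_
    exact (((tendsto_const_nhds.sub t1).sub t0).pow 2).rpow_const (Or.inr (by linarith))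
  rw [sub_zero] at t2
  have hev := t2.eventually (lt_mem_nhds hc')
  rw [eventually_atTop] at hev
  obtain ⟨N, hN⟩ := hev
  refine ⟨max N 3, fun n hn => ?_⟩
  have hn1 : N ≤ n := le_trans (le_max_left _ _) hn
  have hn2 : 3 ≤ n := le_trans (le_max_right _ _) hn
  have hn0 : (0 : ℝ) < n := by
    have : 0 < n := by omega
    exact_mod_cast this
  set m : ℕ := ⌊(n : ℝ) / (2 * p + 1)⌋₊ with hm
  have hmle : m + 1 ≤ n := by
    have h1 : (m : ℝ) ≤ (n : ℝ) / (2 * p + 1) := Nat.floor_le (by positivity)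
    have h2 : (n : ℝ) / (2 * p + 1) ≤ n / 3 := by
      refine div_le_div_of_nonneg_left hn0.le (by norm_num) (by linarith)
    have h3 : (3 : ℝ) ≤ n := by exact_mod_cast hn2
    have h4 : (m : ℝ) + 1 ≤ n := by linarith
    exact_mod_cast h4
  have h := hN n hn1
  refine lt_of_lt_of_le ?_ (powerSum_oneOf (p := p) (by linarith) hmle)
  have e1 : (1 - (m : ℝ) / n - 1 / n) = ((n : ℝ) - m - 1) / n := by
    field_simp
  rw [e1] at h
  calc c * (n : ℝ) < ((m : ℝ) / n * ((((n : ℝ) - m - 1) / n) ^ 2) ^ p) * n :=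
        mul_lt_mul_of_pos_right h hn0
    _ = (m : ℝ) * ((((n : ℝ) - m - 1) / n) ^ 2) ^ p := by
        rw [mul_right_comm, div_mul_cancel₀ _ hn0.ne']

/-- The extremal constant. -/
noncomputable def density (p : ℝ) : ℝ :=
  sSup {r : ℝ | ∃ (n : ℕ) (H : Finset (Finset (Fin n))), 0 < n ∧ (∀ e ∈ H, e.card = 3) ∧
    CliqueFree H ∧ r = powerSum p H / n}

lemma density_upper {p : ℝ} (hp : 3000 ≤ p) :
    density p ≤ 1 / (2 * Real.exp 1 * p) + 64 / p ^ 2 := by
  refine Real.sSup_le ?_ (by positivity)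
  rintro r ⟨n, H, hn, h3, hF, rfl⟩
  have hn0 : (0 : ℝ) < n := by exact_mod_cast hn
  rw [div_le_iff₀ hn0]
  exact upper hp h3 hF

lemma powerSum_le {p : ℝ} (hp : 0 ≤ p) {n : ℕ} {H : Finset (Finset (Fin n))}
    (h3 : ∀ e ∈ H, e.card = 3) (hF : CliqueFree H) : powerSum p H ≤ n := by
  unfold powerSum
  calc ∑ v : Fin n, (2 * (degree H v : ℝ) / (n : ℝ) ^ 2) ^ p ≤ ∑ _v : Fin n, (1 : ℝ) := by
        refine Finset.sum_le_sum fun v _ => Real.rpow_le_one (by positivity) ?_ hp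
        have h := D_le_sq (T := adj H) (k4free_of h3 hF) v
        rw [D_eq h3, Fintype.card_fin] at h
        have hn1 : (1 : ℝ) ≤ n := by
          have : 0 < n := Fin.pos v
          exact_mod_cast this
        rw [div_le_one (by positivity)]
        nlinarith
    _ = n := by simp

/-- The lower bound for the extremal constant. -/
theorem density_lower {p : ℝ} (hp : 1 ≤ p) : 1 / (Real.exp 1 * (2 * p + 1)) ≤ density p := by
  refine le_of_forall_lt fun c hc => ?_
  obtain ⟨d, hcd, hd⟩ := exists_between hc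
  obtain ⟨N, hN⟩ := lower (p := p) hp hd
  refine lt_of_lt_of_le hcd ?_
  have hn0 : (0 : ℝ) < ((N + 1 : ℕ) : ℝ) := by positivity
  have h := hN (N + 1) (by omega)
  refine le_trans ?_ (le_csSup ?_ ⟨N + 1, oneOf (N + 1) ⌊((N + 1 : ℕ) : ℝ) / (2 * p + 1)⌋₊,
    by omega, oneOf_card _ _, oneOf_free _ _, rfl⟩)
  · rw [le_div_iff₀ hn0]
    exact h.le
  · refine ⟨1, ?_⟩
    rintro r ⟨n, H, hn, h3, hF, rfl⟩
    have hn0 : (0 : ℝ) < n := by exact_mod_cast hn
    rw [div_le_iff₀ hn0, one_mul]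
    exact powerSum_le (by linarith) h3 hF

/-- **The limit.** -/
theorem density_tendsto :
    Tendsto (fun p : ℝ => p * density p) atTop (𝓝 (1 / (2 * Real.exp 1))) := by
  have e0 : (0 : ℝ) < Real.exp 1 := Real.exp_pos 1
  have h1 : Tendsto (fun p : ℝ => p * (1 / (Real.exp 1 * (2 * p + 1)))) atTop
      (𝓝 (1 / (2 * Real.exp 1))) := by
    have h2 : Tendsto (fun p : ℝ => 1 / (2 * Real.exp 1) - 1 / (2 * Real.exp 1) * (2 * p + 1)⁻¹)
        atTop (𝓝 (1 / (2 * Real.exp 1) - 1 / (2 * Real.exp 1) * 0)) := by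
      refine tendsto_const_nhds.sub (tendsto_const_nhds.mul ?_)
      exact tendsto_inv_atTop_zero.comp (tendsto_atTop_add_const_right _ _
        (tendsto_id.const_mul_atTop (by norm_num)))
    rw [mul_zero, sub_zero] at h2
    refine h2.congr' ?_
    filter_upwards [eventually_gt_atTop 0] with p hp
    field_simp
    ring
  have h3 : Tendsto (fun p : ℝ => p * (1 / (2 * Real.exp 1 * p) + 64 / p ^ 2)) atTop
      (𝓝 (1 / (2 * Real.exp 1))) := by
    have h5 : Tendsto (fun p : ℝ => 1 / (2 * Real.exp 1) + 64 * p⁻¹) atTop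
        (𝓝 (1 / (2 * Real.exp 1) + 64 * 0)) :=
      tendsto_const_nhds.add (tendsto_const_nhds.mul tendsto_inv_atTop_zero)
    rw [mul_zero, add_zero] at h5
    refine h5.congr' ?_
    filter_upwards [eventually_gt_atTop 0] with p hp
    field_simp
  refine tendsto_of_tendsto_of_tendsto_of_le_of_le' h1 h3 ?_ ?_
  · filter_upwards [eventually_ge_atTop 3000] with p hp
    exact mul_le_mul_of_nonneg_left (density_lower (by linarith)) (by linarith)
  · filter_upwards [eventually_ge_atTop 3000] with p hp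
    exact mul_le_mul_of_nonneg_left (density_upper hp) (by linarith)

/-- The constant of the balanced construction is smaller for `p ≥ 7`. -/
theorem balanced_lt {p : ℝ} (hp : 7 ≤ p) :
    (5 / 9 : ℝ) ^ p < 1 / (Real.exp 1 * (2 * p + 1)) := by
  set t : ℝ := p - 7 with ht
  have ht0 : 0 ≤ t := by linarith
  have e1 : (5 / 9 : ℝ) ^ p = (5 / 9 : ℝ) ^ (7 : ℕ) * (5 / 9 : ℝ) ^ t := by
    rw [← Real.rpow_natCast, ← Real.rpow_add (by norm_num)]
    congr 1
    push_cast
    rw [ht]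
    ring
  have hpos : (0 : ℝ) < (9 / 5 : ℝ) ^ t := Real.rpow_pos_of_pos (by norm_num) _
  have e3 : (5 / 9 : ℝ) ^ t * (2 * p + 1) ≤ 15 := by
    have h1 : (5 / 9 : ℝ) ^ t = ((9 / 5 : ℝ) ^ t)⁻¹ := by
      rw [← Real.inv_rpow (by norm_num)]
      norm_num
    have h2 : 2 * p + 1 ≤ 15 * (9 / 5 : ℝ) ^ t := by
      have hexp : 1 + t * Real.log (9 / 5) ≤ (9 / 5 : ℝ) ^ t := by
        rw [Real.rpow_def_of_pos (by norm_num)]
        have := Real.add_one_le_exp (Real.log (9 / 5) * t)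
        linarith
      have hlog : (4 : ℝ) / 9 ≤ Real.log (9 / 5) := by
        have := Real.one_sub_inv_le_log_of_pos (show (0 : ℝ) < 9 / 5 by norm_num)
        norm_num at this
        linarith
      have : t * (4 / 9) ≤ t * Real.log (9 / 5) := mul_le_mul_of_nonneg_left hlog ht0
      have hpt : 2 * p + 1 = 15 + 2 * t := by rw [ht]; ring
      rw [hpt]
      linarith
    rw [h1, inv_mul_le_iff₀ hpos]
    linarith
  have he := Real.exp_one_lt_d9
  have he0 : 0 < Real.exp 1 := Real.exp_pos 1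
  rw [lt_div_iff₀ (by positivity), e1]
  calc (5 / 9 : ℝ) ^ (7 : ℕ) * (5 / 9 : ℝ) ^ t * (Real.exp 1 * (2 * p + 1)) =
        (5 / 9 : ℝ) ^ (7 : ℕ) * Real.exp 1 * ((5 / 9 : ℝ) ^ t * (2 * p + 1)) := by ring
    _ ≤ (5 / 9 : ℝ) ^ (7 : ℕ) * Real.exp 1 * 15 :=
        mul_le_mul_of_nonneg_left e3 (by positivity)
    _ < 1 := by
        norm_num
        linarith

/-- The balanced construction is not optimal for `p ≥ 7`. -/
theorem balanced_lt_density {p : ℝ} (hp : 7 ≤ p) : (5 / 9 : ℝ) ^ p < density p :=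
  lt_of_lt_of_le (balanced_lt hp) (density_lower (by linarith))

end Pool.Agent.N730.DP
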