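import Pool.Agent.N730.DP.F

/-!
# 3-graphs given by patterns
-/

set_option autoImplicit false
open Finset Filter Topology
open scoped Classical

namespace Pool.Agent.N730.DP

open Pool.Agent.N601.LP4 (K4Free CliqueFree)

/-- The triples of vertices whose multiset of classes belongs to `E`. -/
noncomputable def pattern {n m : ℕ} (E : Finset (Multiset (Fin m))) (f : Fin n → Fin m) :
    Finset (Finset (Fin n)) :=
  univ.filter fun e => e.card = 3 ∧ e.val.map f ∈ E

lemma pattern_card {n m : ℕ} (E : Finset (Multiset (Fin m))) (f : Fin n → Fin m) :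
    ∀ e ∈ pattern E f, e.card = 3 := fun _ he => (mem_filter.mp he).2.1

lemma val_three {n : ℕ} {x y z : Fin n} (hxy : x ≠ y) (hxz : x ≠ z) (hyz : y ≠ z) :
    ({x, y, z} : Finset (Fin n)).val = {x, y, z} := by
  rw [Finset.insert_val_of_notMem (by simp [hxy, hxz]), Finset.insert_val_of_notMem (by simp [hyz]),
    Finset.singleton_val]
  rfl

lemma card_three {n : ℕ} {x y z : Fin n} (hxy : x ≠ y) (hxz : x ≠ z) (hyz : y ≠ z) :
    ({x, y, z} : Finset (Fin n)).card = 3 :=
  Finset.card_eq_three.mpr ⟨x, y, z, hxy, hxz, hyz, rfl⟩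

lemma mem_pattern {n m : ℕ} {E : Finset (Multiset (Fin m))} {f : Fin n → Fin m} {x y z : Fin n}
    (hxy : x ≠ y) (hxz : x ≠ z) (hyz : y ≠ z) :
    ({x, y, z} : Finset (Fin n)) ∈ pattern E f ↔ ({f x, f y, f z} : Multiset (Fin m)) ∈ E := by
  unfold pattern
  rw [mem_filter, val_three hxy hxz hyz]
  constructor
  · rintro ⟨-, -, h⟩
    simpa using h
  · intro h
    exact ⟨mem_univ _, card_three hxy hxz hyz, by simpa using h⟩

lemma ne_of_card {n : ℕ} {x y z : Fin n} (h : ({x, y, z} : Finset (Fin n)).card = 3) :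
    x ≠ y ∧ x ≠ z ∧ y ≠ z := by
  refine ⟨?_, ?_, ?_⟩
  · rintro rfl
    have : ({x, x, z} : Finset (Fin n)).card ≤ 2 := by
      rw [show ({x, x, z} : Finset (Fin n)) = {x, z} from by simp]
      exact Finset.card_le_two
    omega
  · rintro rfl
    have : ({x, y, x} : Finset (Fin n)).card ≤ 2 := by
      rw [show ({x, y, x} : Finset (Fin n)) = {x, y} from by
        ext a; simp only [mem_insert, mem_singleton]; tauto]
      exact Finset.card_le_two
    omega
  · rintro rfl
    have : ({x, y, y} : Finset (Fin n)).card ≤ 2 := by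
      rw [show ({x, y, y} : Finset (Fin n)) = {x, y} from by simp]
      exact Finset.card_le_two
    omega

lemma pattern_free {n m : ℕ} {E : Finset (Multiset (Fin m))} (f : Fin n → Fin m)
    (hE : ∀ a b c d : Fin m, ({a, b, c} : Multiset (Fin m)) ∈ E → ({a, b, d} : Multiset (Fin m)) ∈ E →
      ({a, c, d} : Multiset (Fin m)) ∈ E → ({b, c, d} : Multiset (Fin m)) ∈ E → False) :
    CliqueFree (pattern E f) := by
  intro Q hQ
  obtain ⟨x, Q', hx, rfl, hQ'⟩ := Finset.card_eq_succ.mp (show Q.card = 3 + 1 from hQ)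
  obtain ⟨y, z, w, hyz, hyw, hzw, rfl⟩ := Finset.card_eq_three.mp hQ'
  simp only [mem_insert, mem_singleton, not_or] at hx
  obtain ⟨hxy, hxz, hxw⟩ := hx
  by_contra hcon
  push Not at hcon
  have h1 := hcon {x, y, z} (by intro a; simp only [mem_insert, mem_singleton]; tauto)
    (card_three hxy hxz hyz)
  have h2 := hcon {x, y, w} (by intro a; simp only [mem_insert, mem_singleton]; tauto)
    (card_three hxy hxw hyw)
  have h3 := hcon {x, z, w} (by intro a; simp only [mem_insert, mem_singleton]; tauto)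
    (card_three hxz hxw hzw)
  have h4 := hcon {y, z, w} (by intro a; simp only [mem_insert, mem_singleton]; tauto)
    (card_three hyz hyw hzw)
  rw [mem_pattern hxy hxz hyz] at h1
  rw [mem_pattern hxy hxw hyw] at h2
  rw [mem_pattern hxz hxw hzw] at h3
  rw [mem_pattern hyz hyw hzw] at h4
  exact hE _ _ _ _ h1 h2 h3 h4

/-- The size of a class. -/
noncomputable def cl {n m : ℕ} (f : Fin n → Fin m) (a : Fin m) : ℝ :=
  ((univ.filter fun x : Fin n => f x = a).card : ℝ)

lemma sum_classes {n m : ℕ} (f : Fin n → Fin m) (h : Fin m → ℝ) :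
    ∑ x : Fin n, h (f x) = ∑ a : Fin m, cl f a * h a := by
  have : ∀ x : Fin n, h (f x) = ∑ a : Fin m, if f x = a then h a else 0 := fun x => by simp
  rw [Finset.sum_congr rfl fun x _ => this x, Finset.sum_comm]
  refine Finset.sum_congr rfl fun a _ => ?_
  rw [← Finset.sum_filter, Finset.sum_const, nsmul_eq_mul]
  rfl

/-- The number of the pairs given by the pattern, for a vertex of the class `i`. -/
noncomputable def pr {n m : ℕ} (E : Finset (Multiset (Fin m))) (f : Fin n → Fin m) (i : Fin m) : ℝ :=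
  ∑ q ∈ univ.filter (fun q : Fin m × Fin m => ({i, q.1, q.2} : Multiset (Fin m)) ∈ E),
    cl f q.1 * cl f q.2

lemma pr_eq {n m : ℕ} (E : Finset (Multiset (Fin m))) (f : Fin n → Fin m) (i : Fin m) :
    pr E f i = ∑ x : Fin n, ∑ y : Fin n,
      if ({i, f x, f y} : Multiset (Fin m)) ∈ E then (1 : ℝ) else 0 := by
  have h1 : ∀ x : Fin n, ∑ y : Fin n,
      (if ({i, f x, f y} : Multiset (Fin m)) ∈ E then (1 : ℝ) else 0) =
      ∑ b : Fin m, cl f b * (if ({i, f x, b} : Multiset (Fin m)) ∈ E then (1 : ℝ) else 0) :=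
    fun x => sum_classes f (fun b => if ({i, f x, b} : Multiset (Fin m)) ∈ E then (1 : ℝ) else 0)
  rw [Finset.sum_congr rfl fun x _ => h1 x]
  rw [sum_classes f (fun a => ∑ b : Fin m, cl f b *
    (if ({i, a, b} : Multiset (Fin m)) ∈ E then (1 : ℝ) else 0))]
  unfold pr
  rw [Finset.sum_filter, ← Finset.univ_product_univ, Finset.sum_product]
  refine Finset.sum_congr rfl fun a _ => ?_
  rw [Finset.mul_sum]
  refine Finset.sum_congr rfl fun b _ => ?_
  split_ifs <;> ring

lemma D_pattern_le {n m : ℕ} (E : Finset (Multiset (Fin m))) (f : Fin n → Fin m) (v : Fin n) :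
    D (adj (pattern E f)) v ≤ pr E f (f v) := by
  rw [pr_eq]
  unfold D
  refine Finset.sum_le_sum fun x _ => Finset.sum_le_sum fun y _ => ?_
  by_cases h : adj (pattern E f) v x y
  · have hc := ne_of_card (pattern_card E f _ h)
    have h' := (mem_pattern hc.1 hc.2.1 hc.2.2).mp h
    rw [if_pos h, if_pos h']
  · rw [if_neg h]
    split_ifs <;> norm_num

lemma le_D_pattern {n m : ℕ} (E : Finset (Multiset (Fin m))) (f : Fin n → Fin m) (v : Fin n) :
    pr E f (f v) - 3 * n ≤ D (adj (pattern E f)) v := by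
  rw [pr_eq]
  unfold D
  have h1 : ∑ x : Fin n, ∑ y : Fin n,
      (if ({f v, f x, f y} : Multiset (Fin m)) ∈ E then (1 : ℝ) else 0) ≤
      ∑ x : Fin n, ∑ y : Fin n, ((if adj (pattern E f) v x y then (1 : ℝ) else 0) +
        ((if v = x then (1 : ℝ) else 0) + (if v = y then (1 : ℝ) else 0) +
        (if x = y then (1 : ℝ) else 0))) := by
    refine Finset.sum_le_sum fun x _ => Finset.sum_le_sum fun y _ => ?_
    have n0 : (0 : ℝ) ≤ if adj (pattern E f) v x y then (1 : ℝ) else 0 := by
      split_ifs <;> norm_num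
    have n1 : (0 : ℝ) ≤ if v = x then (1 : ℝ) else 0 := by split_ifs <;> norm_num
    have n2 : (0 : ℝ) ≤ if v = y then (1 : ℝ) else 0 := by split_ifs <;> norm_num
    have n3 : (0 : ℝ) ≤ if x = y then (1 : ℝ) else 0 := by split_ifs <;> norm_num
    have hle : (if ({f v, f x, f y} : Multiset (Fin m)) ∈ E then (1 : ℝ) else 0) ≤ 1 := by
      split_ifs <;> norm_num
    by_cases e1 : v = x
    · rw [if_pos e1] at n1 ⊢
      linarith
    by_cases e2 : v = y
    · rw [if_pos e2] at n2 ⊢
      linarith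
    by_cases e3 : x = y
    · rw [if_pos e3] at n3 ⊢
      linarith
    by_cases e4 : ({f v, f x, f y} : Multiset (Fin m)) ∈ E
    · have h' : adj (pattern E f) v x y := (mem_pattern e1 e2 e3).mpr e4
      rw [if_pos h', if_pos e4]
      linarith
    · rw [if_neg e4]
      linarith
  simp only [Finset.sum_add_distrib] at h1
  have h2 : ∑ x : Fin n, ∑ _y : Fin n, (if v = x then (1 : ℝ) else 0) = n := by
    rw [Finset.sum_comm]
    simp
  have h3 : ∑ _x : Fin n, ∑ y : Fin n, (if v = y then (1 : ℝ) else 0) = n := by simp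
  have h4 : ∑ x : Fin n, ∑ y : Fin n, (if x = y then (1 : ℝ) else 0) = n := by simp
  rw [h2, h3, h4] at h1
  linarith

/-- The pattern of Turán's construction. -/
def turanPattern : Finset (Multiset (Fin 3)) := {{0, 1, 2}, {0, 0, 1}, {1, 1, 2}, {2, 2, 0}}

/-- The pattern with four classes. -/
def fourPattern : Finset (Multiset (Fin 4)) :=
  {{0, 3, 3}, {0, 2, 3}, {1, 3, 3}, {1, 2, 3}, {1, 2, 2}, {0, 0, 2}, {0, 1, 2}, {0, 1, 1}}

lemma turan_ok : ∀ a b c d : Fin 3, ({a, b, c} : Multiset (Fin 3)) ∈ turanPattern →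
    ({a, b, d} : Multiset (Fin 3)) ∈ turanPattern → ({a, c, d} : Multiset (Fin 3)) ∈ turanPattern →
    ({b, c, d} : Multiset (Fin 3)) ∈ turanPattern → False := by
  unfold turanPattern
  decide

lemma four_ok : ∀ a b c d : Fin 4, ({a, b, c} : Multiset (Fin 4)) ∈ fourPattern →
    ({a, b, d} : Multiset (Fin 4)) ∈ fourPattern → ({a, c, d} : Multiset (Fin 4)) ∈ fourPattern →
    ({b, c, d} : Multiset (Fin 4)) ∈ fourPattern → False := by
  unfold fourPattern
  decide

end Pool.Agent.N730.DP
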