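import Pool.Agent.N730.DP.G

/-!
# The estimates for Turán's pattern and for the pattern with four classes
-/

set_option autoImplicit false
open Finset Filter Topology
open scoped Classical

namespace Pool.Agent.N730.DP

lemma xexp_le {X : ℝ} : X * Real.exp (-2 * X) ≤ 1 / (2 * Real.exp 1) := by
  have h1 : 2 * X ≤ Real.exp (2 * X - 1) := by linarith [Real.add_one_le_exp (2 * X - 1)]
  have h2 : Real.exp (2 * X - 1) * Real.exp (-2 * X) = (Real.exp 1)⁻¹ := by
    rw [← Real.exp_add, ← Real.exp_neg]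
    congr 1
    ring
  have h3 : 2 * X * Real.exp (-2 * X) ≤ (Real.exp 1)⁻¹ := by
    rw [← h2]
    exact mul_le_mul_of_nonneg_right h1 (Real.exp_pos _).le
  rw [one_div, mul_inv]
  linarith

lemma x4exp_le {X : ℝ} (hX : 0 ≤ X) : X ^ 4 * Real.exp (-2 * X) ≤ 3 / 8 := by
  have h1 : X / 2 ≤ Real.exp (X / 2 - 1) := by linarith [Real.add_one_le_exp (X / 2 - 1)]
  have h2 : (X / 2) ^ 4 ≤ Real.exp (X / 2 - 1) ^ 4 := pow_le_pow_left₀ (by linarith) h1 4
  have h3 : Real.exp (X / 2 - 1) ^ 4 * Real.exp (-2 * X) = (Real.exp 1 ^ 4)⁻¹ := by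
    rw [← Real.exp_nat_mul, ← Real.exp_add, ← Real.exp_nat_mul, ← Real.exp_neg]
    congr 1
    push_cast
    ring
  have h4 : (X / 2) ^ 4 * Real.exp (-2 * X) ≤ (Real.exp 1 ^ 4)⁻¹ := by
    rw [← h3]
    exact mul_le_mul_of_nonneg_right h2 (Real.exp_pos _).le
  have h5 : (Real.exp 1 ^ 4)⁻¹ ≤ 3 / 128 := by
    have he := Real.exp_one_gt_d9
    have : (128 / 3 : ℝ) ≤ Real.exp 1 ^ 4 := by
      calc (128 / 3 : ℝ) ≤ (2.7 : ℝ) ^ 4 := by norm_num
        _ ≤ Real.exp 1 ^ 4 := pow_le_pow_left₀ (by norm_num) (by linarith) 4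
    calc (Real.exp 1 ^ 4)⁻¹ ≤ (128 / 3 : ℝ)⁻¹ := inv_anti₀ (by norm_num) this
      _ = 3 / 128 := by norm_num
  have h6 : X ^ 4 * Real.exp (-2 * X) = 16 * ((X / 2) ^ 4 * Real.exp (-2 * X)) := by ring
  rw [h6]
  linarith

lemma quad_le_exp {x : ℝ} (h0 : 0 ≤ x) (h1 : x ≤ 1 / 4) :
    1 - 2 * x + 2 * x ^ 2 ≤ Real.exp (-2 * x + 4 * x ^ 3) := by
  have e1 := Real.exp_bound' (x := 2 * x) (by linarith) (by linarith) (n := 3) (by norm_num)
  simp only [Finset.sum_range_succ, Finset.sum_range_zero, Nat.factorial] at e1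
  norm_num at e1
  have e2 : Real.exp (2 * x) ≤ 1 + 2 * x + 2 * x ^ 2 + 16 / 9 * x ^ 3 := by
    nlinarith
  have hq : 0 ≤ 1 - 2 * x + 2 * x ^ 2 := by nlinarith
  have e3 : (1 - 2 * x + 2 * x ^ 2) * Real.exp (2 * x) ≤ 1 + 4 * x ^ 3 := by
    have := mul_le_mul_of_nonneg_left e2 hq
    have hx3 : 0 ≤ x ^ 3 := by positivity
    nlinarith [mul_nonneg hx3 h0, mul_nonneg hx3 (sub_nonneg.mpr h1), mul_nonneg (mul_nonneg hx3 h0)
      (sub_nonneg.mpr h1)]
  have e4 : 1 + 4 * x ^ 3 ≤ Real.exp (4 * x ^ 3) := by linarith [Real.add_one_le_exp (4 * x ^ 3)]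
  have e5 : (1 - 2 * x + 2 * x ^ 2) * Real.exp (2 * x) ≤ Real.exp (4 * x ^ 3) := e3.trans e4
  calc 1 - 2 * x + 2 * x ^ 2 = ((1 - 2 * x + 2 * x ^ 2) * Real.exp (2 * x)) * Real.exp (-2 * x) := by
        rw [mul_assoc, ← Real.exp_add, show 2 * x + -2 * x = 0 by ring, Real.exp_zero, mul_one]
    _ ≤ Real.exp (4 * x ^ 3) * Real.exp (-2 * x) :=
        mul_le_mul_of_nonneg_right e5 (Real.exp_pos _).le
    _ = _ := by rw [← Real.exp_add]; ring_nf

/-- The first calculus lemma. -/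
lemma X_le {x p : ℝ} (h0 : 0 ≤ x) (h1 : x ≤ 1 / 4) (hp : 3000 ≤ p) :
    x * (1 - 2 * x + 2 * x ^ 2) ^ p ≤ 1 / (2 * Real.exp 1 * p) + 3 / p ^ 3 := by
  have hp0 : 0 < p := by linarith
  have hq : 0 ≤ 1 - 2 * x + 2 * x ^ 2 := by nlinarith
  have e1 : (1 - 2 * x + 2 * x ^ 2) ^ p ≤ Real.exp (-2 * (p * x)) * Real.exp (4 * p * x ^ 3) := by
    refine (Real.rpow_le_rpow hq (quad_le_exp h0 h1) hp0.le).trans (le_of_eq ?_)
    rw [← Real.exp_mul, ← Real.exp_add]
    congr 1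
    ring
  set X : ℝ := p * x with hX
  have hX0 : 0 ≤ X := by positivity
  have hxX : x = X / p := by rw [hX]; field_simp
  have m1 : x * Real.exp (-2 * X) ≤ 1 / (2 * Real.exp 1 * p) := by
    have := xexp_le (X := X)
    rw [show x * Real.exp (-2 * X) = X * Real.exp (-2 * X) / p by rw [hxX]; ring,
      show 1 / (2 * Real.exp 1 * p) = 1 / (2 * Real.exp 1) / p by field_simp]
    exact div_le_div_of_nonneg_right this hp0.le
  rcases le_or_gt (4 * p * x ^ 3) 1 with h | h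
  · have e2 : Real.exp (4 * p * x ^ 3) ≤ 1 + 2 * (4 * p * x ^ 3) := by
      have hu : 0 ≤ 4 * p * x ^ 3 := by positivity
      have := Real.exp_bound' hu h (n := 1) (by norm_num)
      simp at this
      linarith
    have e3 : x * (1 - 2 * x + 2 * x ^ 2) ^ p ≤
        x * (Real.exp (-2 * X) * (1 + 2 * (4 * p * x ^ 3))) := by
      refine mul_le_mul_of_nonneg_left (e1.trans ?_) h0
      exact mul_le_mul_of_nonneg_left e2 (Real.exp_pos _).le
    have e4 : x * (Real.exp (-2 * X) * (1 + 2 * (4 * p * x ^ 3))) =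
        x * Real.exp (-2 * X) + 8 * (X ^ 4 * Real.exp (-2 * X)) / p ^ 3 := by
      rw [hxX]
      field_simp
      ring
    have e5 : 8 * (X ^ 4 * Real.exp (-2 * X)) / p ^ 3 ≤ 3 / p ^ 3 := by
      refine div_le_div_of_nonneg_right ?_ (by positivity)
      linarith [x4exp_le hX0]
    linarith
  · have e2 : 4 * p * x ^ 3 ≤ X / 4 := by
      rw [hX]
      have : x ^ 2 ≤ 1 / 16 := by nlinarith
      have h2 : x * x ^ 2 ≤ x * (1 / 16) := mul_le_mul_of_nonneg_left this h0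
      have h3 : p * (x * x ^ 2) ≤ p * (x * (1 / 16)) := mul_le_mul_of_nonneg_left h2 hp0.le
      nlinarith
    have e3 : (4 : ℝ) ≤ X := by
      by_contra hcon
      push Not at hcon
      have h2 : x < 4 / 3000 := by
        rw [hxX]
        calc X / p ≤ X / 3000 := div_le_div_of_nonneg_left hX0 (by norm_num) hp
          _ < 4 / 3000 := div_lt_div_of_pos_right hcon (by norm_num)
      have h3 : x ^ 2 < 1 / 16 := by nlinarith
      have h4 : 4 * p * x ^ 3 = 4 * X * x ^ 2 := by rw [hX]; ring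
      have h5 : x ^ 2 ≤ (4 / 3000) ^ 2 := pow_le_pow_left₀ h0 h2.le 2
      have h6 : X * x ^ 2 ≤ 4 * (4 / 3000) ^ 2 :=
        mul_le_mul hcon.le h5 (by positivity) (by norm_num)
      rw [h4] at h
      norm_num at h6
      linarith
    have e4 : Real.exp (-2 * X) * Real.exp (4 * p * x ^ 3) ≤ Real.exp (-X) * Real.exp (-2) := by
      rw [← Real.exp_add, ← Real.exp_add]
      exact Real.exp_le_exp.mpr (by linarith)
    have e5 : x * (1 - 2 * x + 2 * x ^ 2) ^ p ≤ x * (Real.exp (-X) * Real.exp (-2)) :=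
      mul_le_mul_of_nonneg_left (e1.trans e4) h0
    have e6 : X * Real.exp (-X) ≤ 1 := by
      have h2 : X ≤ Real.exp X := by linarith [Real.add_one_le_exp X]
      calc X * Real.exp (-X) ≤ Real.exp X * Real.exp (-X) :=
            mul_le_mul_of_nonneg_right h2 (Real.exp_pos _).le
        _ = 1 := by rw [← Real.exp_add]; simp
    have e7 : Real.exp (-2) ≤ 1 / (2 * Real.exp 1) := by
      rw [one_div, Real.exp_neg]
      refine inv_anti₀ (by positivity) ?_
      have he := Real.exp_one_gt_d9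
      have : Real.exp 2 = Real.exp 1 * Real.exp 1 := by
        rw [← Real.exp_add]; norm_num
      rw [this]
      exact mul_le_mul_of_nonneg_right (by linarith) (Real.exp_pos _).le
    have e8 : x * (Real.exp (-X) * Real.exp (-2)) = (X * Real.exp (-X)) * Real.exp (-2) / p := by
      rw [hxX]
      ring
    have e9 : (X * Real.exp (-X)) * Real.exp (-2) ≤ 1 / (2 * Real.exp 1) := by
      calc (X * Real.exp (-X)) * Real.exp (-2) ≤ 1 * Real.exp (-2) :=
            mul_le_mul_of_nonneg_right e6 (Real.exp_pos _).le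
        _ ≤ _ := by rw [one_mul]; exact e7
    have e10 : (X * Real.exp (-X)) * Real.exp (-2) / p ≤ 1 / (2 * Real.exp 1 * p) := by
      rw [show 1 / (2 * Real.exp 1 * p) = 1 / (2 * Real.exp 1) / p by field_simp]
      exact div_le_div_of_nonneg_right e9 hp0.le
    have : 0 ≤ 3 / p ^ 3 := by positivity
    linarith

/-- The normalized power sum of Turán's construction with parts `a n`, `b n`, `c n`. -/
noncomputable def Tu (p a b c : ℝ) : ℝ :=
  a * (2 * b * (1 - b) + c ^ 2) ^ p + b * (2 * c * (1 - c) + a ^ 2) ^ p +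
    c * (2 * a * (1 - a) + b ^ 2) ^ p

lemma Tu_rot (p a b c : ℝ) : Tu p a b c = Tu p b c a := by
  unfold Tu
  ring

lemma nine_le {p : ℝ} (hp : 3000 ≤ p) : (9 / 10 : ℝ) ^ p ≤ 1 / (2 * Real.exp 1 * p) := by
  have h1 := rpow_le_exp (x := 9 / 10) (p := p) (by norm_num) (by linarith)
  have h2 : Real.exp (p * (9 / 10 - 1)) ≤ 1 / (2 * Real.exp 1 * p) := by
    rw [show p * (9 / 10 - 1) = -(p / 10) by ring, Real.exp_neg, one_div]
    refine inv_anti₀ (by positivity) ?_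
    have h3 := Real.quadratic_le_exp_of_nonneg (x := p / 10) (by linarith)
    have he := Real.exp_one_lt_d9
    nlinarith
  exact h1.trans h2

lemma three_le {p : ℝ} (hp : 3000 ≤ p) : (3 / 5 : ℝ) ^ p ≤ 1 / (1000 * p ^ 2) := by
  have h1 := rpow_le_exp (x := 3 / 5) (p := p) (by norm_num) (by linarith)
  have h2 : Real.exp (p * (3 / 5 - 1)) ≤ 1 / (1000 * p ^ 2) := by
    rw [show p * (3 / 5 - 1) = -(p * (2 / 5)) by ring, Real.exp_neg, one_div]
    refine inv_anti₀ (by positivity) ?_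
    have h3 := Real.pow_div_factorial_le_exp (x := p * (2 / 5)) (by linarith) 4
    refine le_trans ?_ h3
    rw [le_div_iff₀ (by positivity)]
    simp only [Nat.factorial]
    norm_num
    have : p ^ 4 = p ^ 2 * p ^ 2 := by ring
    have h4 : (3000 : ℝ) ^ 2 ≤ p ^ 2 := pow_le_pow_left₀ (by norm_num) hp 2
    nlinarith [sq_nonneg p]
  exact h1.trans h2

lemma Tu_case {p a b c : ℝ} (hp : 3000 ≤ p) (ha : 0 ≤ a) (hb : 0 ≤ b) (hc : 0 ≤ c)
    (h : a + b + c = 1) (hd : 9 / 10 < 2 * c * (1 - c) + a ^ 2) :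
    Tu p a b c ≤ 1 / (2 * Real.exp 1 * p) + 1 / (400 * p ^ 2) := by
  have ha' : 0.63 < a := by
    by_contra hcon
    push Not at hcon
    nlinarith [sq_nonneg (c - 1 / 2)]
  have hc' : c = 1 - a - b := by linarith
  have hb1 : 2 * c * (1 - c) + a ^ 2 ≤ 1 - 2 * b + 2 * b ^ 2 := by
    rw [hc']
    nlinarith [sq_nonneg (1 - a - 2 * b)]
  have hb2 : b < 0.06 := by
    by_contra hcon
    push Not at hcon
    have : b ≤ 0.37 := by linarith
    nlinarith
  have t1 : (2 * c * (1 - c) + a ^ 2) ^ p ≤ (1 - 2 * b + 2 * b ^ 2) ^ p :=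
    Real.rpow_le_rpow (by linarith) hb1 (by linarith)
  have t2 : (2 * b * (1 - b) + c ^ 2) ^ p ≤ (3 / 5 : ℝ) ^ p := by
    refine Real.rpow_le_rpow ?_ ?_ (by linarith)
    · have : 0 ≤ b * (1 - b) := mul_nonneg hb (by linarith)
      nlinarith [sq_nonneg c]
    · have hc2 : c ≤ 0.37 := by linarith
      nlinarith
  have t3 : (2 * a * (1 - a) + b ^ 2) ^ p ≤ (3 / 5 : ℝ) ^ p := by
    refine Real.rpow_le_rpow ?_ ?_ (by linarith)
    · have : 0 ≤ a * (1 - a) := mul_nonneg ha (by linarith)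
      nlinarith [sq_nonneg b]
    · nlinarith [sq_nonneg (a - 1 / 2)]
  have hX := X_le hb (by linarith) hp (x := b)
  have h3 := three_le hp
  have h35 : (0 : ℝ) ≤ (3 / 5 : ℝ) ^ p := Real.rpow_nonneg (by norm_num) _
  unfold Tu
  have s1 : a * (2 * b * (1 - b) + c ^ 2) ^ p + c * (2 * a * (1 - a) + b ^ 2) ^ p ≤
      (3 / 5 : ℝ) ^ p := by
    have := mul_le_mul_of_nonneg_left t2 ha
    have := mul_le_mul_of_nonneg_left t3 hc
    nlinarith
  have s2 : b * (2 * c * (1 - c) + a ^ 2) ^ p ≤ b * (1 - 2 * b + 2 * b ^ 2) ^ p :=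
    mul_le_mul_of_nonneg_left t1 hb
  have s3 : 3 / p ^ 3 ≤ 1 / (1000 * p ^ 2) := by
    rw [div_le_div_iff₀ (by positivity) (by positivity)]
    nlinarith [sq_nonneg p, pow_pos (show (0 : ℝ) < p by linarith) 2]
  have s4 : 1 / (1000 * p ^ 2) + 1 / (1000 * p ^ 2) ≤ 1 / (400 * p ^ 2) := by
    rw [← sub_nonneg]
    have : 1 / (400 * p ^ 2) - (1 / (1000 * p ^ 2) + 1 / (1000 * p ^ 2)) = 1 / (2000 * p ^ 2) := by
      field_simp
      norm_num
    rw [this]
    positivity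
  linarith

/-- **The bound for Turán's construction**, for all sizes of the parts. -/
theorem Tu_le {p a b c : ℝ} (hp : 3000 ≤ p) (ha : 0 ≤ a) (hb : 0 ≤ b) (hc : 0 ≤ c)
    (h : a + b + c = 1) : Tu p a b c ≤ 1 / (2 * Real.exp 1 * p) + 1 / (400 * p ^ 2) := by
  by_cases h1 : 9 / 10 < 2 * c * (1 - c) + a ^ 2
  · exact Tu_case hp ha hb hc h h1
  by_cases h2 : 9 / 10 < 2 * a * (1 - a) + b ^ 2
  · rw [Tu_rot]
    exact Tu_case hp hb hc ha (by linarith) h2
  by_cases h3 : 9 / 10 < 2 * b * (1 - b) + c ^ 2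
  · rw [Tu_rot, Tu_rot]
    exact Tu_case hp hc ha hb (by linarith) h3
  push Not at h1 h2 h3
  have n9 := nine_le hp
  have key : ∀ x y : ℝ, 0 ≤ x → 0 ≤ y → y ≤ 1 → 2 * y * (1 - y) + x ^ 2 ≤ 9 / 10 →
      (2 * y * (1 - y) + x ^ 2) ^ p ≤ (9 / 10 : ℝ) ^ p := by
    intro x y _ hy hy1 hxy
    refine Real.rpow_le_rpow ?_ hxy (by linarith)
    have : 0 ≤ y * (1 - y) := mul_nonneg hy (by linarith)
    nlinarith [sq_nonneg x]
  have k1 := mul_le_mul_of_nonneg_left (key c b hc hb (by linarith) h3) ha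
  have k2 := mul_le_mul_of_nonneg_left (key a c ha hc (by linarith) h1) hb
  have k3 := mul_le_mul_of_nonneg_left (key b a hb ha (by linarith) h2) hc
  unfold Tu
  have : a * (9 / 10 : ℝ) ^ p + b * (9 / 10 : ℝ) ^ p + c * (9 / 10 : ℝ) ^ p = (9 / 10 : ℝ) ^ p := by
    rw [← add_mul, ← add_mul, h, one_mul]
  have : 0 ≤ 1 / (400 * p ^ 2) := by positivity
  linarith

/-- **The lower bound for the constant of the pattern with four classes.** -/
theorem four_const {p : ℝ} (hp : 1 ≤ p) :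
    1 / (2 * Real.exp 1 * p) + 9 / (400 * p ^ 2) <
      (1 / (4 * p)) * ((1 - 4 * (1 / (4 * p)) + 8 * (1 / (4 * p)) ^ 2) ^ p +
        (1 - 4 * (1 / (4 * p)) + 12 * (1 / (4 * p)) ^ 2) ^ p) := by
  have hp0 : 0 < p := by linarith
  set β : ℝ := 1 / (2 * p) with hβ
  have hβ0 : 0 < β := by positivity
  have hβ1 : β ≤ 1 / 2 := by
    rw [hβ]
    exact one_div_le_one_div_of_le (by norm_num) (by linarith)
  have e1 : 1 - 4 * (1 / (4 * p)) + 8 * (1 / (4 * p)) ^ 2 = 1 - 2 * β + 2 * β ^ 2 := by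
    rw [hβ]; field_simp; ring
  have e2 : 1 - 4 * (1 / (4 * p)) + 12 * (1 / (4 * p)) ^ 2 = 1 - 2 * β + 3 * β ^ 2 := by
    rw [hβ]; field_simp; ring
  rw [e1, e2]
  have hq : 0 < 1 - 2 * β + 2 * β ^ 2 := by nlinarith [sq_nonneg (1 - 2 * β)]
  have f1 : Real.exp (-1) ≤ (1 - 2 * β + 2 * β ^ 2) ^ p := by
    have g1 : Real.exp (-(2 * β)) ≤ 1 - 2 * β + 2 * β ^ 2 := by
      rw [Real.exp_neg]
      have g2 := Real.quadratic_le_exp_of_nonneg (x := 2 * β) (by linarith)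
      have g3 : 1 ≤ (1 - 2 * β + 2 * β ^ 2) * Real.exp (2 * β) := by
        have := mul_le_mul_of_nonneg_left g2 hq.le
        nlinarith [sq_nonneg (β ^ 2)]
      rw [inv_le_iff_one_le_mul₀ (Real.exp_pos _)]
      exact g3
    refine le_trans (le_of_eq ?_) (Real.rpow_le_rpow (Real.exp_pos _).le g1 hp0.le)
    rw [← Real.exp_mul]
    congr 1
    rw [hβ]
    field_simp
  have f2 : (1 - 2 * β + 2 * β ^ 2) ^ p * (1 + p * β ^ 2) ≤ (1 - 2 * β + 3 * β ^ 2) ^ p := by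
    have g1 : 1 + p * β ^ 2 ≤ (1 + β ^ 2) ^ p :=
      one_add_mul_self_le_rpow_one_add (by nlinarith [sq_nonneg β]) hp
    calc (1 - 2 * β + 2 * β ^ 2) ^ p * (1 + p * β ^ 2) ≤
          (1 - 2 * β + 2 * β ^ 2) ^ p * (1 + β ^ 2) ^ p :=
          mul_le_mul_of_nonneg_left g1 (Real.rpow_nonneg hq.le _)
      _ = ((1 - 2 * β + 2 * β ^ 2) * (1 + β ^ 2)) ^ p := by
          rw [Real.mul_rpow hq.le (by positivity)]
      _ ≤ (1 - 2 * β + 3 * β ^ 2) ^ p := by
          refine Real.rpow_le_rpow (by positivity) ?_ hp0.le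
          have : 0 ≤ β ^ 3 * (1 - β) := mul_nonneg (by positivity) (by linarith)
          nlinarith
  have f3 : Real.exp (-1) * (1 + p * β ^ 2) ≤ (1 - 2 * β + 3 * β ^ 2) ^ p :=
    (mul_le_mul_of_nonneg_right f1 (by positivity)).trans f2
  have f4 : (1 / (4 * p)) * (Real.exp (-1) + Real.exp (-1) * (1 + p * β ^ 2)) ≤
      (1 / (4 * p)) * ((1 - 2 * β + 2 * β ^ 2) ^ p + (1 - 2 * β + 3 * β ^ 2) ^ p) :=
    mul_le_mul_of_nonneg_left (add_le_add f1 f3) (by positivity)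
  refine lt_of_lt_of_le ?_ f4
  have f5 : (1 / (4 * p)) * (Real.exp (-1) + Real.exp (-1) * (1 + p * β ^ 2)) =
      1 / (2 * Real.exp 1 * p) + 1 / (16 * Real.exp 1 * p ^ 2) := by
    rw [Real.exp_neg, hβ]
    field_simp
    ring
  rw [f5]
  have f6 : 9 / (400 * p ^ 2) < 1 / (16 * Real.exp 1 * p ^ 2) := by
    rw [div_lt_div_iff₀ (by positivity) (by positivity)]
    have he := Real.exp_one_lt_d9
    have hpp : 0 < p ^ 2 := by positivity
    nlinarith
  linarith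

end Pool.Agent.N730.DP
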