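import Pool.Agent.N730.DP.H

/-!
# Turán's construction is not optimal
-/

set_option autoImplicit false
open Finset Filter Topology
open scoped Classical

namespace Pool.Agent.N730.DP

open Pool.Agent.N601.LP4 (K4Free CliqueFree)

lemma sum_cl {n m : ℕ} (f : Fin n → Fin m) : ∑ a : Fin m, cl f a = n := by
  have := sum_classes f (fun _ => (1 : ℝ))
  simp at this
  exact this.symm

lemma cl_nonneg {n m : ℕ} (f : Fin n → Fin m) (a : Fin m) : 0 ≤ cl f a := Nat.cast_nonneg _

lemma turan_pairs0 : (univ.filter fun q : Fin 3 × Fin 3 =>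
    ({0, q.1, q.2} : Multiset (Fin 3)) ∈ turanPattern) =
    {(1, 2), (2, 1), (0, 1), (1, 0), (2, 2)} := by
  unfold turanPattern
  decide

lemma turan_pairs1 : (univ.filter fun q : Fin 3 × Fin 3 =>
    ({1, q.1, q.2} : Multiset (Fin 3)) ∈ turanPattern) =
    {(0, 2), (2, 0), (0, 0), (1, 2), (2, 1)} := by
  unfold turanPattern
  decide

lemma turan_pairs2 : (univ.filter fun q : Fin 3 × Fin 3 =>
    ({2, q.1, q.2} : Multiset (Fin 3)) ∈ turanPattern) =
    {(0, 1), (1, 0), (1, 1), (0, 2), (2, 0)} := by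
  unfold turanPattern
  decide

lemma four_pairs0 : (univ.filter fun q : Fin 4 × Fin 4 =>
    ({0, q.1, q.2} : Multiset (Fin 4)) ∈ fourPattern) =
    {(3, 3), (2, 3), (3, 2), (0, 2), (2, 0), (1, 2), (2, 1), (1, 1)} := by
  unfold fourPattern
  decide

lemma four_pairs1 : (univ.filter fun q : Fin 4 × Fin 4 =>
    ({1, q.1, q.2} : Multiset (Fin 4)) ∈ fourPattern) =
    {(3, 3), (2, 3), (3, 2), (2, 2), (0, 2), (2, 0), (0, 1), (1, 0)} := by
  unfold fourPattern
  decide

lemma pr_turan {n : ℕ} (f : Fin n → Fin 3) :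
    pr turanPattern f 0 = 2 * cl f 1 * (cl f 0 + cl f 2) + cl f 2 ^ 2 ∧
    pr turanPattern f 1 = 2 * cl f 2 * (cl f 0 + cl f 1) + cl f 0 ^ 2 ∧
    pr turanPattern f 2 = 2 * cl f 0 * (cl f 1 + cl f 2) + cl f 1 ^ 2 := by
  refine ⟨?_, ?_, ?_⟩
  · unfold pr
    have : (univ.filter fun q : Fin 3 × Fin 3 =>
      ({0, q.1, q.2} : Multiset (Fin 3)) ∈ turanPattern) =
      {(1, 2), (2, 1), (0, 1), (1, 0), (2, 2)} := by
      convert turan_pairs0
    rw [this, Finset.sum_insert (by decide), Finset.sum_insert (by decide),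
      Finset.sum_insert (by decide), Finset.sum_insert (by decide), Finset.sum_singleton]
    ring
  · unfold pr
    have : (univ.filter fun q : Fin 3 × Fin 3 =>
      ({1, q.1, q.2} : Multiset (Fin 3)) ∈ turanPattern) =
      {(0, 2), (2, 0), (0, 0), (1, 2), (2, 1)} := by
      convert turan_pairs1
    rw [this, Finset.sum_insert (by decide), Finset.sum_insert (by decide),
      Finset.sum_insert (by decide), Finset.sum_insert (by decide), Finset.sum_singleton]
    ring
  · unfold pr
    have : (univ.filter fun q : Fin 3 × Fin 3 =>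
      ({2, q.1, q.2} : Multiset (Fin 3)) ∈ turanPattern) =
      {(0, 1), (1, 0), (1, 1), (0, 2), (2, 0)} := by
      convert turan_pairs2
    rw [this, Finset.sum_insert (by decide), Finset.sum_insert (by decide),
      Finset.sum_insert (by decide), Finset.sum_insert (by decide), Finset.sum_singleton]
    ring

lemma pr_four {n : ℕ} (f : Fin n → Fin 4) :
    pr fourPattern f 0 = cl f 3 ^ 2 + 2 * cl f 2 * cl f 3 + 2 * cl f 0 * cl f 2 +
      2 * cl f 1 * cl f 2 + cl f 1 ^ 2 ∧
    pr fourPattern f 1 = cl f 3 ^ 2 + 2 * cl f 2 * cl f 3 + cl f 2 ^ 2 +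
      2 * cl f 0 * cl f 2 + 2 * cl f 0 * cl f 1 := by
  refine ⟨?_, ?_⟩
  · unfold pr
    have : (univ.filter fun q : Fin 4 × Fin 4 =>
      ({0, q.1, q.2} : Multiset (Fin 4)) ∈ fourPattern) =
      {(3, 3), (2, 3), (3, 2), (0, 2), (2, 0), (1, 2), (2, 1), (1, 1)} := by
      convert four_pairs0
    rw [this, Finset.sum_insert (by decide), Finset.sum_insert (by decide),
      Finset.sum_insert (by decide), Finset.sum_insert (by decide), Finset.sum_insert (by decide),
      Finset.sum_insert (by decide), Finset.sum_insert (by decide), Finset.sum_singleton]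
    ring
  · unfold pr
    have : (univ.filter fun q : Fin 4 × Fin 4 =>
      ({1, q.1, q.2} : Multiset (Fin 4)) ∈ fourPattern) =
      {(3, 3), (2, 3), (3, 2), (2, 2), (0, 2), (2, 0), (0, 1), (1, 0)} := by
      convert four_pairs1
    rw [this, Finset.sum_insert (by decide), Finset.sum_insert (by decide),
      Finset.sum_insert (by decide), Finset.sum_insert (by decide), Finset.sum_insert (by decide),
      Finset.sum_insert (by decide), Finset.sum_insert (by decide), Finset.sum_singleton]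
    ring

lemma two_degree {n m : ℕ} (E : Finset (Multiset (Fin m))) (f : Fin n → Fin m) (v : Fin n) :
    2 * (degree (pattern E f) v : ℝ) ≤ pr E f (f v) ∧
    pr E f (f v) - 3 * n ≤ 2 * (degree (pattern E f) v : ℝ) := by
  rw [← D_eq (pattern_card E f)]
  exact ⟨D_pattern_le E f v, le_D_pattern E f v⟩

/-- The upper bound for Turán's construction. -/
theorem turan_upper {p : ℝ} (hp : 3000 ≤ p) {n : ℕ} (f : Fin n → Fin 3) :
    powerSum p (pattern turanPattern f) ≤
      (1 / (2 * Real.exp 1 * p) + 1 / (400 * p ^ 2)) * n := by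
  rcases Nat.eq_zero_or_pos n with h0 | hn
  · subst h0
    simp [powerSum]
  have hn0 : (0 : ℝ) < n := by exact_mod_cast hn
  have h1 : powerSum p (pattern turanPattern f) ≤
      ∑ v : Fin n, (pr turanPattern f (f v) / (n : ℝ) ^ 2) ^ p := by
    unfold powerSum
    refine Finset.sum_le_sum fun v _ => Real.rpow_le_rpow (by positivity) ?_ (by linarith)
    exact div_le_div_of_nonneg_right (two_degree turanPattern f v).1 (by positivity)
  rw [sum_classes f (fun i => (pr turanPattern f i / (n : ℝ) ^ 2) ^ p)] at h1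
  have hs := sum_cl f
  rw [Fin.sum_univ_three] at hs h1
  obtain ⟨e0, e1, e2⟩ := pr_turan f
  rw [e0, e1, e2] at h1
  set a : ℝ := cl f 0 / n with ha
  set b : ℝ := cl f 1 / n with hb
  set c : ℝ := cl f 2 / n with hc
  have ha' : cl f 0 = a * n := by rw [ha]; field_simp
  have hb' : cl f 1 = b * n := by rw [hb]; field_simp
  have hc' : cl f 2 = c * n := by rw [hc]; field_simp
  have habc : a + b + c = 1 := by
    rw [ha', hb', hc'] at hs
    have : (a + b + c) * n = 1 * n := by linarith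
    exact mul_right_cancel₀ hn0.ne' this
  have hT := Tu_le hp (div_nonneg (cl_nonneg f 0) hn0.le) (div_nonneg (cl_nonneg f 1) hn0.le)
    (div_nonneg (cl_nonneg f 2) hn0.le) habc
  rw [ha', hb', hc'] at h1
  have g0 : (2 * (b * n) * (a * n + c * n) + (c * n) ^ 2) / (n : ℝ) ^ 2 =
      2 * b * (1 - b) + c ^ 2 := by
    rw [show 1 - b = a + c by linarith]
    field_simp
  have g1 : (2 * (c * n) * (a * n + b * n) + (a * n) ^ 2) / (n : ℝ) ^ 2 =
      2 * c * (1 - c) + a ^ 2 := by
    rw [show 1 - c = a + b by linarith]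
    field_simp
  have g2 : (2 * (a * n) * (b * n + c * n) + (b * n) ^ 2) / (n : ℝ) ^ 2 =
      2 * a * (1 - a) + b ^ 2 := by
    rw [show 1 - a = b + c by linarith]
    field_simp
  rw [g0, g1, g2] at h1
  have h2 : a * n * (2 * b * (1 - b) + c ^ 2) ^ p + b * n * (2 * c * (1 - c) + a ^ 2) ^ p +
      c * n * (2 * a * (1 - a) + b ^ 2) ^ p = Tu p a b c * n := by
    unfold Tu
    ring
  rw [h2] at h1
  exact h1.trans (mul_le_mul_of_nonneg_right hT hn0.le)

/-- The classes of the construction: the first `k` vertices, the next `k`, the next `3 * k`, and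
the rest. -/
def part (n k : ℕ) (x : Fin n) : Fin 4 :=
  if x.val < k then 0 else if x.val < 2 * k then 1 else if x.val < 5 * k then 2 else 3

lemma card_Ico_fin {n a b : ℕ} (hab : a ≤ b) (hb : b ≤ n) :
    ((univ.filter fun x : Fin n => a ≤ x.val ∧ x.val < b).card : ℝ) = b - a := by
  have h1 : (univ.filter fun x : Fin n => a ≤ x.val ∧ x.val < b).card = b - a := by
    have : (univ.filter fun x : Fin n => a ≤ x.val ∧ x.val < b).map Fin.valEmbedding =
        Finset.Ico a b := by
      ext z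
      simp only [Finset.mem_map, mem_filter, mem_univ, true_and, Finset.mem_Ico,
        Fin.valEmbedding_apply]
      constructor
      · rintro ⟨x, hx, rfl⟩
        exact hx
      · intro h
        exact ⟨⟨z, by omega⟩, h, rfl⟩
    rw [← Finset.card_map, this, Nat.card_Ico]
  rw [h1, Nat.cast_sub hab]

lemma cl_part {n k : ℕ} (h : 5 * k ≤ n) : cl (part n k) 0 = k ∧ cl (part n k) 1 = k ∧
    cl (part n k) 2 = 3 * k ∧ cl (part n k) 3 = n - 5 * k := by
  have f0 : (univ.filter fun x : Fin n => part n k x = 0) =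
      univ.filter fun x : Fin n => 0 ≤ x.val ∧ x.val < k := by
    ext x
    rw [mem_filter, mem_filter]
    unfold part
    split_ifs with h1 h2 h3 <;> simp <;> omega
  have f1 : (univ.filter fun x : Fin n => part n k x = 1) =
      univ.filter fun x : Fin n => k ≤ x.val ∧ x.val < 2 * k := by
    ext x
    rw [mem_filter, mem_filter]
    unfold part
    split_ifs with h1 h2 h3 <;> simp <;> omega
  have f2 : (univ.filter fun x : Fin n => part n k x = 2) =
      univ.filter fun x : Fin n => 2 * k ≤ x.val ∧ x.val < 5 * k := by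
    ext x
    rw [mem_filter, mem_filter]
    unfold part
    split_ifs with h1 h2 h3 <;> simp <;> omega
  have f3 : (univ.filter fun x : Fin n => part n k x = 3) =
      univ.filter fun x : Fin n => 5 * k ≤ x.val ∧ x.val < n := by
    ext x
    have := x.isLt
    rw [mem_filter, mem_filter]
    unfold part
    split_ifs with h1 h2 h3 <;> simp <;> omega
  unfold cl
  rw [f0, f1, f2, f3, card_Ico_fin (by omega) (by omega), card_Ico_fin (by omega) (by omega),
    card_Ico_fin (by omega) (by omega), card_Ico_fin (by omega) (by omega)]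
  push_cast
  refine ⟨?_, ?_, ?_, ?_⟩ <;> ring

lemma four_sum {p : ℝ} (hp : 0 ≤ p) {n k : ℕ} (h : 5 * k ≤ n) (hn : 0 < n)
    (hpos : 0 ≤ 1 - 4 * ((k : ℝ) / n) - 3 / n) :
    (k : ℝ) * ((1 - 4 * ((k : ℝ) / n) + 8 * ((k : ℝ) / n) ^ 2 - 3 / n) ^ p +
      (1 - 4 * ((k : ℝ) / n) + 12 * ((k : ℝ) / n) ^ 2 - 3 / n) ^ p) ≤
    powerSum p (pattern fourPattern (part n k)) := by
  have hn0 : (0 : ℝ) < n := by exact_mod_cast hn
  obtain ⟨c0, c1, c2, c3⟩ := cl_part h
  obtain ⟨e0, e1⟩ := pr_four (part n k)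
  rw [c0, c1, c2, c3] at e0
  rw [c0, c1, c2, c3] at e1
  set g : Fin 4 → ℝ := fun i => if i = 0 then
      (1 - 4 * ((k : ℝ) / n) + 8 * ((k : ℝ) / n) ^ 2 - 3 / n) ^ p else if i = 1 then
      (1 - 4 * ((k : ℝ) / n) + 12 * ((k : ℝ) / n) ^ 2 - 3 / n) ^ p else 0 with hg
  have h1 : ∑ v : Fin n, g (part n k v) ≤ powerSum p (pattern fourPattern (part n k)) := by
    unfold powerSum
    refine Finset.sum_le_sum fun v _ => ?_
    have h2 := (two_degree fourPattern (part n k) v).2
    rw [hg]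
    simp only
    split_ifs with i0 i1
    · rw [i0, e0] at h2
      refine Real.rpow_le_rpow (by nlinarith [sq_nonneg ((k : ℝ) / n)]) ?_ hp
      rw [le_div_iff₀ (by positivity)]
      refine le_trans (le_of_eq ?_) h2
      field_simp
      ring
    · rw [i1, e1] at h2
      refine Real.rpow_le_rpow (by nlinarith [sq_nonneg ((k : ℝ) / n)]) ?_ hp
      rw [le_div_iff₀ (by positivity)]
      refine le_trans (le_of_eq ?_) h2
      field_simp
      ring
    · positivity
  rw [sum_classes (part n k) g, Fin.sum_univ_four, c0, c1] at h1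
  refine le_trans (le_of_eq ?_) h1
  rw [hg]
  simp
  ring

/-- The lower bound for the construction with four classes. -/
theorem four_lower {p : ℝ} (hp : 2 ≤ p) {c : ℝ}
    (hc : c < (1 / (4 * p)) * ((1 - 4 * (1 / (4 * p)) + 8 * (1 / (4 * p)) ^ 2) ^ p +
        (1 - 4 * (1 / (4 * p)) + 12 * (1 / (4 * p)) ^ 2) ^ p)) :
    ∃ N : ℕ, ∀ n : ℕ, N ≤ n → c * (n : ℝ) <
      powerSum p (pattern fourPattern (part n ⌊(n : ℝ) / (4 * p)⌋₊)) := by
  set κ : ℝ := 1 / (4 * p) with hκ
  have hκ0 : 0 < κ := by positivity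
  have hκ1 : κ ≤ 1 / 8 := by
    rw [hκ]
    exact one_div_le_one_div_of_le (by norm_num) (by linarith)
  have t1 : Tendsto (fun n : ℕ => ((⌊(n : ℝ) / (4 * p)⌋₊ : ℕ) : ℝ) / n) atTop (𝓝 κ) := by
    have h := (tendsto_nat_floor_mul_div_atTop (R := ℝ) (a := κ) hκ0.le).comp
      tendsto_natCast_atTop_atTop
    refine h.congr fun n => ?_
    simp only [Function.comp]
    rw [hκ]
    congr 3
    ring
  have t0 : Tendsto (fun n : ℕ => (3 : ℝ) / n) atTop (𝓝 0) := tendsto_const_div_atTop_nhds_zero_nat 3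
  have t2 : ∀ A : ℝ, Tendsto (fun n : ℕ => (1 - 4 * (((⌊(n : ℝ) / (4 * p)⌋₊ : ℕ) : ℝ) / n) +
      A * (((⌊(n : ℝ) / (4 * p)⌋₊ : ℕ) : ℝ) / n) ^ 2 - 3 / n) ^ p) atTop
      (𝓝 ((1 - 4 * κ + A * κ ^ 2) ^ p)) := by
    intro A
    have h := (((tendsto_const_nhds (x := (1 : ℝ))).sub (t1.const_mul 4)).add
      ((t1.pow 2).const_mul A)).sub t0
    rw [sub_zero] at h
    exact h.rpow_const (Or.inr (by linarith))
  have t3 := t1.mul ((t2 8).add (t2 12))
  have hev := t3.eventually (lt_mem_nhds hc)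
  rw [eventually_atTop] at hev
  obtain ⟨N, hN⟩ := hev
  refine ⟨max N 6, fun n hn => ?_⟩
  have hn1 : N ≤ n := le_trans (le_max_left _ _) hn
  have hn2 : 6 ≤ n := le_trans (le_max_right _ _) hn
  have hnpos : 0 < n := by omega
  have hn0 : (0 : ℝ) < n := by exact_mod_cast hnpos
  set k : ℕ := ⌊(n : ℝ) / (4 * p)⌋₊ with hk
  have hk1 : (k : ℝ) ≤ (n : ℝ) / 8 := by
    have h1 : (k : ℝ) ≤ (n : ℝ) / (4 * p) := Nat.floor_le (by positivity)
    have h2 : (n : ℝ) / (4 * p) ≤ n / 8 := by
      refine div_le_div_of_nonneg_left hn0.le (by norm_num) (by linarith)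
    linarith
  have hk2 : 5 * k ≤ n := by
    have : (5 : ℝ) * k ≤ n := by linarith
    exact_mod_cast this
  have hk3 : (k : ℝ) / n ≤ 1 / 8 := by
    rw [div_le_iff₀ hn0]
    linarith
  have hn3 : (3 : ℝ) / n ≤ 1 / 2 := by
    rw [div_le_iff₀ hn0]
    have : (6 : ℝ) ≤ n := by exact_mod_cast hn2
    linarith
  refine lt_of_lt_of_le ?_ (four_sum (p := p) (by linarith) hk2 hnpos (by linarith))
  have h := hN n hn1
  calc c * (n : ℝ) < _ * n := mul_lt_mul_of_pos_right h hn0
    _ = _ := by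
        rw [mul_right_comm, div_mul_cancel₀ _ hn0.ne']

/-- **Turán's construction is not optimal.** -/
theorem four_beats {p : ℝ} (hp : 3000 ≤ p) : ∃ N : ℕ, ∀ n : ℕ, N ≤ n → ∀ f : Fin n → Fin 3,
    powerSum p (pattern turanPattern f) + n / (50 * p ^ 2) <
      powerSum p (pattern fourPattern (part n ⌊(n : ℝ) / (4 * p)⌋₊)) := by
  obtain ⟨N, hN⟩ := four_lower (p := p) (by linarith) (four_const (by linarith))
  refine ⟨N, fun n hn f => ?_⟩
  have h1 := turan_upper hp f
  have h2 := hN n hn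
  have h3 : (1 / (2 * Real.exp 1 * p) + 9 / (400 * p ^ 2)) * (n : ℝ) =
      (1 / (2 * Real.exp 1 * p) + 1 / (400 * p ^ 2)) * n + n / (50 * p ^ 2) := by
    have : 9 / (400 * p ^ 2) = 1 / (400 * p ^ 2) + 1 / (50 * p ^ 2) := by
      field_simp
      norm_num
    rw [this]
    ring
  rw [h3] at h2
  linarith

/-- The lower bound of the second order for the extremal constant. -/
theorem density_second {p : ℝ} (hp : 2 ≤ p) :
    1 / (2 * Real.exp 1 * p) + 9 / (400 * p ^ 2) ≤ density p := by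
  obtain ⟨N, hN⟩ := four_lower (p := p) hp (four_const (by linarith))
  have hn0 : (0 : ℝ) < ((N + 1 : ℕ) : ℝ) := by positivity
  have h := hN (N + 1) (by omega)
  refine le_trans ?_ (le_csSup ?_ ⟨N + 1, pattern fourPattern
    (part (N + 1) ⌊((N + 1 : ℕ) : ℝ) / (4 * p)⌋₊), by omega, pattern_card _ _,
    pattern_free _ four_ok, rfl⟩)
  · rw [le_div_iff₀ hn0]
    exact h.le
  · refine ⟨1, ?_⟩
    rintro r ⟨n, H, hn, h3, hF, rfl⟩
    have hn0 : (0 : ℝ) < n := by exact_mod_cast hn
    rw [div_le_iff₀ hn0, one_mul]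
    exact powerSum_le (by linarith) h3 hF

end Pool.Agent.N730.DP
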